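import Pool.Agent.W2helper90.OA.Step

/-!
# Four colours: towers of full height with few changes
-/

set_option autoImplicit false

namespace Pool.Agent.W2helper90.OA

open Finset Pool.Agent.TH138.NF Pool.Agent.W2helper90.FC

theorem base_changes (χ : ℕ → ℕ → Bool) (j : ℕ) (p : Fin 3) (y : Fin 2 → ℕ)
    (hy : ∀ i, y i < 2 ^ 2 ^ j) : (tcs (TH138.NF.base χ j) (2 ^ 2 ^ j) p y).card ≤ 2 * 2 ^ j := by
  classical
  set m := 2 ^ j with hm
  -- a change of the colour is a change of one of the two digits
  have hne : ∀ z ∈ tcs (TH138.NF.base χ j) (2 ^ m) p y, z + 1 < 2 ^ m ∧ StrictMono (ins p z y) ∧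
      StrictMono (ins p (z + 1) y) ∧ (D (ins p z y) 0 ≠ D (ins p (z + 1) y) 0 ∨
        D (ins p z y) 1 ≠ D (ins p (z + 1) y) 1) := by
    intro z hz
    obtain ⟨h1, h2, h3, h4⟩ := mem_tcs.1 hz
    refine ⟨h1, h2, h3, ?_⟩
    by_contra hcon
    push Not at hcon
    apply h4
    have hlt : ∀ v, v < 2 ^ m → ∀ i, ins p v y i < 2 ^ m := by
      intro v hv i
      cases i using Fin.succAboveCases p with
      | x => simpa [ins] using hv
      | p i => simpa [ins] using hy i
    rw [run_base χ j _ h2 (hlt z (by omega)), run_base χ j _ h3 (hlt (z + 1) h1), hcon.1, hcon.2]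
  have hbelow : ∀ z ∈ tcs (TH138.NF.base χ j) (2 ^ m) p y, ∀ i : Fin 2, i.castSucc < p → y i < z :=
    fun z hz i hi => ((Fin.strictMono_insertNth_iff _ _ _).1 (hne z hz).2.1).2.1 i hi
  have habove : ∀ z ∈ tcs (TH138.NF.base χ j) (2 ^ m) p y, ∀ i : Fin 2, p ≤ i.castSucc → z + 1 < y i :=
    fun z hz i hi => ((Fin.strictMono_insertNth_iff _ _ _).1 (hne z hz).2.2.1).2.2 i hi
  fin_cases p
  · -- first gap
    have hsub : tcs (TH138.NF.base χ j) (2 ^ m) (0 : Fin 3) y ⊆
        (range (2 ^ m)).filter fun z => z + 1 < y 0 ∧ hd z (y 0) ≠ hd (z + 1) (y 0) := by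
      intro z hz
      obtain ⟨h1, h2, h3, h4⟩ := hne z hz
      have h5 := habove z hz 0 (by simp)
      rw [mem_filter, mem_range]
      refine ⟨by omega, h5, ?_⟩
      intro h
      have e0 : ∀ v, D (ins (0 : Fin 3) v y) 0 = hd v (y 0) := fun v => by
        simp [D, ins]
      have e1 : ∀ v, D (ins (0 : Fin 3) v y) 1 = hd (y 0) (y 1) := fun v => rfl
      rcases h4 with h4 | h4
      · apply h4
        exact (e0 z).trans (h.trans (e0 (z + 1)).symm)
      · exact h4 ((e1 z).trans (e1 (z + 1)).symm)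
    have h1 := card_le_card hsub
    have h2 := card_down m (y 0) (hy 0)
    change (tcs (TH138.NF.base χ j) (2 ^ m) (0 : Fin 3) y).card ≤ 2 * m
    omega
  · -- second gap
    have hsub : tcs (TH138.NF.base χ j) (2 ^ m) (1 : Fin 3) y ⊆
        ((range (2 ^ m)).filter fun z => y 0 < z ∧ z + 1 < 2 ^ m ∧ hd (y 0) z ≠ hd (y 0) (z + 1)) ∪
        ((range (2 ^ m)).filter fun z => z + 1 < y 1 ∧ hd z (y 1) ≠ hd (z + 1) (y 1)) := by
      intro z hz
      obtain ⟨h1, h2, h3, h4⟩ := hne z hz
      have h5 := hbelow z hz 0 (by simp [Fin.lt_def])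
      have h6 := habove z hz 1 (by simp [Fin.le_def])
      have e0 : ∀ v, D (ins (1 : Fin 3) v y) 0 = hd (y 0) v := fun v => rfl
      have e1 : ∀ v, D (ins (1 : Fin 3) v y) 1 = hd v (y 1) := fun v => rfl
      rw [mem_union, mem_filter, mem_filter, mem_range]
      rcases h4 with h4 | h4
      · left
        refine ⟨by omega, h5, h1, ?_⟩
        intro h
        exact h4 ((e0 z).trans (h.trans (e0 (z + 1)).symm))
      · right
        refine ⟨by omega, h6, ?_⟩
        intro h
        exact h4 ((e1 z).trans (h.trans (e1 (z + 1)).symm))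
    have h1 := card_le_card hsub
    have h2 := card_down m (y 1) (hy 1)
    have h3 := card_up m (y 0)
    have h4 := card_union_le
      ((range (2 ^ m)).filter fun z => y 0 < z ∧ z + 1 < 2 ^ m ∧ hd (y 0) z ≠ hd (y 0) (z + 1))
      ((range (2 ^ m)).filter fun z => z + 1 < y 1 ∧ hd z (y 1) ≠ hd (z + 1) (y 1))
    change (tcs (TH138.NF.base χ j) (2 ^ m) (1 : Fin 3) y).card ≤ 2 * m
    omega
  · -- third gap
    have hsub : tcs (TH138.NF.base χ j) (2 ^ m) (2 : Fin 3) y ⊆
        (range (2 ^ m)).filter fun z => y 1 < z ∧ z + 1 < 2 ^ m ∧ hd (y 1) z ≠ hd (y 1) (z + 1) := by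
      intro z hz
      obtain ⟨h1, h2, h3, h4⟩ := hne z hz
      have h5 := hbelow z hz 1 (by simp [Fin.lt_def])
      have e0 : ∀ v, D (ins (2 : Fin 3) v y) 0 = hd (y 0) (y 1) := fun v => rfl
      have e1 : ∀ v, D (ins (2 : Fin 3) v y) 1 = hd (y 1) v := fun v => rfl
      rw [mem_filter, mem_range]
      rcases h4 with h4 | h4
      · exact absurd ((e0 z).trans (e0 (z + 1)).symm) h4
      · refine ⟨by omega, h5, h1, ?_⟩
        intro h
        exact h4 ((e1 z).trans (h.trans (e1 (z + 1)).symm))
    have h1 := card_le_card hsub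
    have h3 := card_up m (y 1)
    change (tcs (TH138.NF.base χ j) (2 ^ m) (2 : Fin 3) y).card ≤ 2 * m
    omega

/-- the constants -/
def Cs : ℕ → ℕ
  | 0 => 2
  | s + 1 => 4 * Cs s + 4 * (s + 2) + 1

theorem lower_few (j : ℕ) : ∀ s : ℕ, ∃ P : Protocol (Bool × Bool) (s + 2),
    (∀ p (w : Fin (s + 2) → ℕ), (∀ i, w i < Mn j s) →
      (tcs P (Mn j s) p w).card ≤ Cs s * 2 ^ j) ∧
    ∃ n, 2 ≤ n ∧ n ≤ 2 ^ s * (4 * j + s + 5) ∧
      ∀ S ⊆ range (Mn j s), S.card = n → ¬ Hom P S := by
  intro s
  induction s with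
  | zero =>
    obtain ⟨χ, hχ⟩ := base_lower j
    exact ⟨TH138.NF.base χ j, fun p w hw => base_changes χ j p w hw, 4 * j + 5, by omega, by omega, hχ⟩
  | succ s ih =>
    obtain ⟨P, hb, n, hn2, hn, hP⟩ := ih
    refine ⟨P.step, ?_, 2 * n + s, by omega, ?_, step_lower P (Mn j s) n hn2 hP⟩
    · intro p w hw
      refine (step_changes P (Mn j s) (Cs s * 2 ^ j) hb p w hw).trans ?_
      have h1 : 1 ≤ 2 ^ j := Nat.one_le_pow _ _ (by norm_num)
      have h2 : 4 * (s + 2) + 1 ≤ (4 * (s + 2) + 1) * 2 ^ j := Nat.le_mul_of_pos_right _ h1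
      calc 4 * (Cs s * 2 ^ j) + 4 * (s + 2) + 1
          ≤ 4 * (Cs s * 2 ^ j) + (4 * (s + 2) + 1) * 2 ^ j := by omega
        _ = Cs (s + 1) * 2 ^ j := by simp only [Cs]; ring
    · have h1 : s ≤ 2 ^ s := Nat.lt_two_pow_self.le
      have h2 : 2 ^ (s + 1) * (4 * j + (s + 1) + 5) =
          2 * (2 ^ s * (4 * j + s + 5)) + 2 ^ (s + 1) := by ring
      have h3 : 2 ^ (s + 1) = 2 * 2 ^ s := by ring
      omega

/-- from tuples to sets -/
theorem changes_colour {r : ℕ} (P : Protocol (Bool × Bool) r) (a : Bool × Bool) (N B : ℕ)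
    (hB : ∀ p (w : Fin r → ℕ), (∀ i, w i < N) → (tcs P N p w).card ≤ B)
    (A : Finset ℕ) (hA : A ⊆ range N) (hAc : A.card = r) :
    changes (colour P a) N A ≤ (r + 1) * B := by
  classical
  set w : Fin r → ℕ := fun i => A.orderEmbOfFin hAc i with hw
  have hwm : StrictMono w := (A.orderEmbOfFin hAc).strictMono
  have hwA : ∀ i, w i ∈ A := fun i => A.orderEmbOfFin_mem hAc i
  have hwN : ∀ i, w i < N := fun i => mem_range.1 (hA (hwA i))
  have hsub : changes (colour P a) N A ≤
      ((univ : Finset (Fin (r + 1))).biUnion fun p => tcs P N p w).card := by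
    apply changes_le
    intro z h1 h2 h3 h4
    rw [mem_biUnion]
    have hple : (A.filter fun x => x < z).card ≤ r := by
      rw [← hAc]
      exact card_filter_le _ _
    let p : Fin (r + 1) := ⟨(A.filter fun x => x < z).card, by omega⟩
    have hlow : ∀ i : Fin r, i.castSucc < p → w i < z := by
      intro i hi
      by_contra hcon
      have hcon' : z < w i := by
        have : w i ≠ z := fun h => h2 (h ▸ hwA i)
        omega
      have hss : (A.filter fun x => x < z) ⊆ (univ.filter fun l : Fin r => l < i).image w := by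
        intro x hx
        obtain ⟨hxA, hxz⟩ := mem_filter.1 hx
        have hxr : x ∈ Set.range (A.orderEmbOfFin hAc) := by
          rw [Finset.range_orderEmbOfFin]
          exact hxA
        obtain ⟨l, rfl⟩ := hxr
        refine mem_image.2 ⟨l, mem_filter.2 ⟨mem_univ _, ?_⟩, rfl⟩
        by_contra hle
        have := hwm.monotone (not_lt.1 hle)
        simp only [hw] at this hcon'
        omega
      have hc := (card_le_card hss).trans card_image_le
      have hc2 : (univ.filter fun l : Fin r => l < i).card = i := by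
        have : (univ.filter fun l : Fin r => l < i) = Finset.Iio i := by
          ext l
          rw [mem_filter, Finset.mem_Iio]
          exact ⟨fun h => h.2, fun h => ⟨mem_univ _, h⟩⟩
        rw [this, Fin.card_Iio]
      have hi' : (i : ℕ) < (A.filter fun x => x < z).card := hi
      omega
    have hhigh : ∀ i : Fin r, p ≤ i.castSucc → z + 1 < w i := by
      intro i hi
      have hne1 : w i ≠ z := fun h => h2 (h ▸ hwA i)
      have hne2 : w i ≠ z + 1 := fun h => h3 (h ▸ hwA i)
      by_contra hcon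
      have hlt : w i < z := by omega
      have hss : (univ.filter fun l : Fin r => l ≤ i).image w ⊆ A.filter fun x => x < z := by
        intro x hx
        obtain ⟨l, hl, rfl⟩ := mem_image.1 hx
        refine mem_filter.2 ⟨hwA l, ?_⟩
        have := hwm.monotone (mem_filter.1 hl).2
        omega
      have hc := card_le_card hss
      rw [card_image_of_injective _ hwm.injective] at hc
      have hc2 : (univ.filter fun l : Fin r => l ≤ i).card = i + 1 := by
        have : (univ.filter fun l : Fin r => l ≤ i) = Finset.Iic i := by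
          ext l
          rw [mem_filter, Finset.mem_Iic]
          exact ⟨fun h => h.2, fun h => ⟨mem_univ _, h⟩⟩
        rw [this, Fin.card_Iic]
      have hi' : (A.filter fun x => x < z).card ≤ (i : ℕ) := hi
      omega
    have hm1 : StrictMono (ins p z w) := (Fin.strictMono_insertNth_iff _ _ _).2
      ⟨hwm, hlow, fun i hi => by have := hhigh i hi; omega⟩
    have hm2 : StrictMono (ins p (z + 1) w) := (Fin.strictMono_insertNth_iff _ _ _).2
      ⟨hwm, fun i hi => by have := hlow i hi; omega, hhigh⟩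
    have hcol : ∀ v, v ∉ A → StrictMono (ins p v w) →
        colour P a (insert v A) = P.run (ins p v w) := by
      intro v hv hm
      have hcard : (insert v A).card = r + 1 := by rw [card_insert_of_notMem hv, hAc]
      unfold colour
      rw [dif_pos hcard]
      congr 1
      refine (orderEmbOfFin_unique hcard (fun i => ?_) hm).symm
      cases i using Fin.succAboveCases p with
      | x => simp [ins]
      | p i =>
        simp only [ins, Fin.insertNth_apply_succAbove]
        exact mem_insert_of_mem (hwA i)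
    refine ⟨p, mem_univ _, mem_tcs.2 ⟨h1, hm1, hm2, ?_⟩⟩
    rw [← hcol z h2 hm1, ← hcol (z + 1) h3 hm2]
    exact h4
  refine hsub.trans (card_biUnion_le.trans ?_)
  calc ∑ p : Fin (r + 1), (tcs P N p w).card ≤ ∑ _p : Fin (r + 1), B :=
        sum_le_sum (fun p _ => hB p w hwN)
    _ = (r + 1) * B := by rw [sum_const, card_univ, Fintype.card_fin, smul_eq_mul]

/-- **Towers of full height with few changes for four colours.** -/
theorem high_few (s j : ℕ) : ∃ N : ℕ, (N : ℝ) = tow (s + 2) j ∧
    ∃ c : Finset ℕ → Bool × Bool,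
      (∀ A ⊆ range N, A.card = s + 2 → changes c N A ≤ (s + 3) * Cs s * 2 ^ j) ∧
        ∀ S ⊆ range N, S.card = 2 ^ s * (4 * j + s + 5) → ¬ Homogeneous (s + 3) c S := by
  obtain ⟨P, hb, n, -, hn, hP⟩ := lower_few j s
  refine ⟨Mn j s, Mn_tow j s, colour P (false, false), ?_, ?_⟩
  · intro A hA hAc
    refine (changes_colour P (false, false) (Mn j s) _ hb A hA hAc).trans (le_of_eq ?_)
    ring
  · intro S hS hc hh
    obtain ⟨T, hT, hTc⟩ := exists_subset_card_eq (s := S) (n := n) (by omega)
    refine hP T (hT.trans hS) hTc (hom_of_homogeneous (computes_colour P (false, false) (Mn j s))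
      (hT.trans hS) ?_)
    intro A hA B hB
    exact hh A (hA.trans hT) B (hB.trans hT)

end Pool.Agent.W2helper90.OA
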