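import Pool.Agent.W2helper90.OA.Gap
import Pool.Agent.W2helper90.FC.Asy

/-!
# The asymptotic forms
-/

set_option autoImplicit false

namespace Pool.Agent.W2helper90.OA

open Finset Pool.Agent.TH138.NF Pool.Agent.W2helper90.FC

/-- the constants -/
def Kq (q : ℕ) : ℕ → ℕ
  | 0 => 1
  | i + 1 => ((q + 1) * (i + 2)) * Kq q i

theorem Kq_pos (q i : ℕ) : 1 ≤ Kq q i := by
  induction i with
  | zero => exact le_rfl
  | succ i ih => exact Nat.mul_pos (Nat.mul_pos (by omega) (by omega)) ih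

theorem Bq_pos {q : ℕ} (hq : 1 ≤ q) (a E k i : ℕ) : 1 ≤ Bq q a E k i := by
  cases i with
  | zero =>
    unfold Bq
    exact Nat.one_le_iff_ne_zero.2 (by positivity)
  | succ i =>
    unfold Bq
    exact Nat.one_le_iff_ne_zero.2 (by positivity)

theorem Bq_le {q : ℕ} (hq : 1 ≤ q) (a E k : ℕ) {x : ℝ} (hx : 1 ≤ x)
    (h0 : (Bq q a E k 0 : ℝ) ≤ (2 : ℝ) ^ x) (i : ℕ) :
    (Bq q a E k i : ℝ) ≤ tow (i + 1) (Kq q i * x) := by
  induction i with
  | zero =>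
    show _ ≤ (2 : ℝ) ^ (_ : ℝ)
    have : ((Kq q 0 : ℕ) : ℝ) * x = x := by simp [Kq]
    rw [show tow 0 (((Kq q 0 : ℕ) : ℝ) * x) = ((Kq q 0 : ℕ) : ℝ) * x from rfl, this]
    exact h0
  | succ i ih =>
    have hC : (1 : ℝ) ≤ Kq q i := by exact_mod_cast Kq_pos q i
    have hCy : 1 ≤ Kq q i * x := by nlinarith
    set T := Bq q a E k i with hT
    have hT1 : 1 ≤ T := Bq_pos hq a E k i
    have e1 : Bq q a E k (i + 1) ≤ 2 ^ (2 ^ (q * (i + 2)) * T ^ (i + 2)) := by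
      simp only [Bq, ← hT]
      have hq2 : q ≤ 2 ^ q := Nat.lt_two_pow_self.le
      calc (2 * q ^ ((i + 2) * T ^ (i + 1))) ^ T
          ≤ (2 * (2 ^ q) ^ ((i + 2) * T ^ (i + 1))) ^ T := by gcongr
        _ = 2 ^ ((1 + q * ((i + 2) * T ^ (i + 1))) * T) := by
            rw [← pow_mul, ← pow_succ', ← pow_mul]
            ring_nf
        _ ≤ 2 ^ (2 ^ (q * (i + 2)) * T ^ (i + 2)) := by
            apply Nat.pow_le_pow_right (by norm_num)
            have h3 : 1 ≤ T ^ (i + 1) := Nat.one_le_pow _ _ hT1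
            have h4 : q * (i + 2) + 1 ≤ 2 ^ (q * (i + 2)) := Nat.lt_two_pow_self
            calc (1 + q * ((i + 2) * T ^ (i + 1))) * T
                ≤ (T ^ (i + 1) + q * ((i + 2) * T ^ (i + 1))) * T := by gcongr
              _ = (q * (i + 2) + 1) * T ^ (i + 2) := by ring
              _ ≤ _ := Nat.mul_le_mul_right _ h4
    have e2 : ((2 ^ (q * (i + 2)) * T ^ (i + 2) : ℕ) : ℝ) ≤
        tow (i + 1) ((((q + 1) * (i + 2) : ℕ) : ℝ) * (Kq q i * x)) := by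
      rw [Nat.cast_mul, Nat.cast_pow, Nat.cast_pow, Nat.cast_ofNat]
      have h5 : (T : ℝ) ≤ 2 ^ tow i (Kq q i * x) := ih
      have h6 : (T : ℝ) ^ (i + 2) ≤ (2 : ℝ) ^ (((i : ℝ) + 2) * tow i (Kq q i * x)) := by
        calc (T : ℝ) ^ (i + 2) ≤ (2 ^ tow i (Kq q i * x)) ^ (i + 2) := by gcongr
          _ = _ := by
            rw [← Real.rpow_natCast, ← Real.rpow_mul (by norm_num)]
            push_cast
            ring_nf
      have h7 : (2 : ℝ) ^ (q * (i + 2)) = (2 : ℝ) ^ ((q : ℝ) * ((i : ℝ) + 2)) := by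
        rw [← Real.rpow_natCast]
        push_cast
        rfl
      have h8 : 1 ≤ tow i (Kq q i * x) := hCy.trans (le_tow _ _)
      have hi : (0 : ℝ) ≤ i := Nat.cast_nonneg i
      have hq0 : (0 : ℝ) ≤ q := Nat.cast_nonneg q
      calc (2 : ℝ) ^ (q * (i + 2)) * (T : ℝ) ^ (i + 2)
          ≤ (2 : ℝ) ^ ((q : ℝ) * ((i : ℝ) + 2)) *
            (2 : ℝ) ^ (((i : ℝ) + 2) * tow i (Kq q i * x)) := by
            rw [h7]; gcongr
        _ = (2 : ℝ) ^ ((q : ℝ) * ((i : ℝ) + 2) + ((i : ℝ) + 2) * tow i (Kq q i * x)) := by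
            rw [← Real.rpow_add (by norm_num)]
        _ ≤ (2 : ℝ) ^ tow i ((((q + 1) * (i + 2) : ℕ) : ℝ) * (Kq q i * x)) := by
            apply Real.rpow_le_rpow_of_exponent_le (by norm_num)
            refine le_trans ?_ (mul_tow ((q + 1) * (i + 2)) (Nat.mul_pos (by omega) (by omega))
              i hCy)
            push_cast
            nlinarith [mul_nonneg hq0 (by linarith : (0 : ℝ) ≤ (i : ℝ) + 2)]
        _ = _ := rfl
    have e3 : (Bq q a E k (i + 1) : ℝ) ≤ (2 : ℝ) ^ ((2 ^ (q * (i + 2)) * T ^ (i + 2) : ℕ) : ℝ) := by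
      rw [Real.rpow_natCast]
      exact_mod_cast e1
    have e4 : ((Kq q (i + 1) : ℕ) : ℝ) * x = (((q + 1) * (i + 2) : ℕ) : ℝ) * (Kq q i * x) := by
      have : Kq q (i + 1) = ((q + 1) * (i + 2)) * Kq q i := rfl
      rw [this]
      push_cast
      ring
    rw [e4]
    refine e3.trans ?_
    show _ ≤ (2 : ℝ) ^ tow (i + 1) _
    exact Real.rpow_le_rpow_of_exponent_le (by norm_num) e2

/-- the first bound, in the form of a power of two -/
theorem Bq_zero {q : ℕ} (a E k : ℕ) {L : ℝ} (hL : (k : ℝ) + 1 ≤ (2 : ℝ) ^ L) :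
    (Bq q a E k 0 : ℝ) ≤
      (2 : ℝ) ^ (8 * (q : ℝ) ^ 2 * (q * E + 1) * a + q * E * (4 * q + L)) := by
  have h1 : ((8 * q : ℕ) : ℝ) ≤ (2 : ℝ) ^ (8 * q) := by
    exact_mod_cast (Nat.lt_two_pow_self (n := 8 * q)).le
  have h2 : ((4 * q : ℕ) : ℝ) ≤ (2 : ℝ) ^ (4 * q) := by
    exact_mod_cast (Nat.lt_two_pow_self (n := 4 * q)).le
  have h3 : ((Bq q a E k 0 : ℕ) : ℝ) =
      ((((8 * q : ℕ) : ℝ)) ^ (q * a) * (((4 * q : ℕ) : ℝ) * ((k : ℝ) + 1))) ^ (q * E) *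
        (((8 * q : ℕ) : ℝ)) ^ (q * a) := by
    simp only [Bq]
    push_cast
    ring
  rw [h3]
  have h4 : (((8 * q : ℕ) : ℝ)) ^ (q * a) ≤ (2 : ℝ) ^ (8 * (q : ℝ) ^ 2 * a) := by
    calc (((8 * q : ℕ) : ℝ)) ^ (q * a) ≤ ((2 : ℝ) ^ (8 * q)) ^ (q * a) := by gcongr
      _ = (2 : ℝ) ^ (8 * (q : ℝ) ^ 2 * a) := by
        rw [← pow_mul, ← Real.rpow_natCast]
        push_cast
        ring_nf
  have h5 : (((4 * q : ℕ) : ℝ) * ((k : ℝ) + 1)) ≤ (2 : ℝ) ^ (4 * (q : ℝ) + L) := by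
    calc (((4 * q : ℕ) : ℝ) * ((k : ℝ) + 1)) ≤ (2 : ℝ) ^ (4 * q) * (2 : ℝ) ^ L := by gcongr
      _ = _ := by
        rw [Real.rpow_add (by norm_num), ← Real.rpow_natCast]
        push_cast
        rfl
  calc _ ≤ ((2 : ℝ) ^ (8 * (q : ℝ) ^ 2 * a) * (2 : ℝ) ^ (4 * (q : ℝ) + L)) ^ (q * E) *
        (2 : ℝ) ^ (8 * (q : ℝ) ^ 2 * a) := by gcongr
    _ = _ := by
      rw [← Real.rpow_add (by norm_num), ← Real.rpow_natCast, ← Real.rpow_mul (by norm_num),
        ← Real.rpow_add (by norm_num)]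
      push_cast
      ring_nf

variable {κ : Type} [Fintype κ]

omit [Fintype κ] in
theorem sub_homogeneous {r n m N : ℕ} {c : Finset ℕ → κ} (hnm : n ≤ m)
    (h : ∃ S ⊆ range N, S.card = m ∧ Homogeneous r c S) :
    ∃ S ⊆ range N, S.card = n ∧ Homogeneous r c S := by
  obtain ⟨S, hS, hc, hh⟩ := h
  obtain ⟨T, hT, hTc⟩ := exists_subset_card_eq (s := S) (n := n) (by omega)
  exact ⟨T, hT.trans hS, hTc, fun A hA B hB => hh A (hA.trans hT) B (hB.trans hT)⟩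

/-- Few changes in one variable: the explicit form. -/
theorem few (κ : Type) [Fintype κ] (i : ℕ) : ∃ C : ℝ, ∀ n k N p : ℕ, 1 ≤ n → p ≤ i + 1 →
    tow (i + 1) (C * Real.logb 2 ((n : ℝ) + 1) * Real.logb 2 ((k : ℝ) + 2)) ≤ N →
    ∀ c : Finset ℕ → κ, (∀ A ⊆ range N, A.card = i + 1 → gapChanges c N p A ≤ k) →
    ∃ S ⊆ range N, S.card = n ∧ Homogeneous (i + 2) c S := by
  set q := Fintype.card κ with hq
  refine ⟨(Kq q i : ℝ) * (34 * (q : ℝ) ^ 3), fun n k N p hn hp hN c hc => ?_⟩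
  have hq1 : 1 ≤ q := Fintype.card_pos_iff.2 ⟨c ∅⟩
  have hqr : (1 : ℝ) ≤ q := by exact_mod_cast hq1
  have hnr : (1 : ℝ) ≤ n := by exact_mod_cast hn
  set M := Real.logb 2 ((n : ℝ) + 1) with hM
  set L := Real.logb 2 ((k : ℝ) + 2) with hL
  have hL1 : 1 ≤ L := one_le_L k
  have hk0 : (0 : ℝ) ≤ k := Nat.cast_nonneg k
  have hM1 : 1 ≤ M := by
    rw [hM, Real.le_logb_iff_rpow_le (by norm_num) (by positivity)]
    simp only [Real.rpow_one]
    linarith
  set E := Nat.clog 2 n with hE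
  have hE2 : n ≤ 2 ^ E := Nat.le_pow_clog (by norm_num) n
  have hEM : (E : ℝ) ≤ 2 * M := by
    have h1 : (E : ℝ) ≤ M + 1 := by
      rcases Nat.lt_or_ge 1 n with h | h
      · have h2 : 2 ^ (E - 1) < n := Nat.pow_pred_clog_lt_self (by norm_num) h
        have h3 : ((E - 1 : ℕ) : ℝ) ≤ M := by
          rw [hM, Real.le_logb_iff_rpow_le (by norm_num) (by positivity), Real.rpow_natCast]
          have : ((2 ^ (E - 1) : ℕ) : ℝ) ≤ n := by exact_mod_cast h2.le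
          push_cast at this
          linarith
        have h4 : (E : ℝ) ≤ ((E - 1 : ℕ) : ℝ) + 1 := by
          have : E ≤ (E - 1) + 1 := by omega
          exact_mod_cast this
        linarith
      · have : E = 0 := by
          have hn1 : n = 1 := by omega
          rw [hE, hn1]
          simp
        rw [this]
        push_cast
        linarith
    linarith
  have hx : (1 : ℝ) ≤ 34 * (q : ℝ) ^ 3 * M * L := by
    have h1 : (1 : ℝ) ≤ (q : ℝ) ^ 3 := one_le_pow₀ hqr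
    have h2 : 1 ≤ M * L := by nlinarith
    nlinarith
  have hB0 : (Bq q 1 E k 0 : ℝ) ≤ (2 : ℝ) ^ (34 * (q : ℝ) ^ 3 * M * L) := by
    refine (Bq_zero (q := q) 1 E k (L := L) ?_).trans ?_
    · rw [hL, Real.rpow_logb (by norm_num) (by norm_num) (by positivity)]
      linarith
    · apply Real.rpow_le_rpow_of_exponent_le (by norm_num)
      push_cast
      have hE0 : (0 : ℝ) ≤ E := Nat.cast_nonneg E
      have a1 : 8 * (q : ℝ) ^ 2 * (q * E + 1) * 1 ≤ 24 * (q : ℝ) ^ 3 * M := by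
        have b1 : (q : ℝ) * E + 1 ≤ q * (3 * M) := by nlinarith
        have b2 : 0 ≤ 8 * (q : ℝ) ^ 2 := by positivity
        nlinarith
      have a2 : (q : ℝ) * E * (4 * q + L) ≤ 10 * (q : ℝ) ^ 3 * M * L := by
        have b1 : 4 * (q : ℝ) + L ≤ 5 * q * L := by nlinarith
        have b2 : (q : ℝ) * E ≤ q * (2 * M) := by nlinarith
        have b3 : (q : ℝ) ^ 2 ≤ (q : ℝ) ^ 3 := pow_le_pow_right₀ hqr (by norm_num)
        have b4 : 0 ≤ M * L := by positivity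
        calc (q : ℝ) * E * (4 * q + L) ≤ (q * (2 * M)) * (5 * q * L) := by gcongr
          _ = 10 * (q : ℝ) ^ 2 * (M * L) := by ring
          _ ≤ 10 * (q : ℝ) ^ 3 * (M * L) := by gcongr
          _ = _ := by ring
      have a3 : 24 * (q : ℝ) ^ 3 * M ≤ 24 * (q : ℝ) ^ 3 * M * L :=
        le_mul_of_one_le_right (by positivity) hL1
      linarith
  have hB := Bq_le hq1 1 E k hx hB0 i
  have hfin : (Bq q 1 E k i : ℝ) ≤ N := by
    refine hB.trans (le_trans (le_of_eq ?_) hN)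
    congr 1
    ring
  exact sub_homogeneous (by omega : n ≤ 2 ^ E * 1)
    (all q 1 E k rfl i p hp N c (by exact_mod_cast hfin) hc)

/-- Colourings of full height have exponentially many changes in every variable. -/
theorem full (κ : Type) [Fintype κ] (i : ℕ) (ε : ℝ) (hε : 0 < ε) :
    ∃ δ : ℝ, 0 < δ ∧ ∃ n₀ : ℕ, ∀ n N p : ℕ, n₀ ≤ n → p ≤ i + 1 → tow (i + 1) (ε * n) ≤ N →
      ∀ c : Finset ℕ → κ, (∀ S ⊆ range N, S.card = n → ¬ Homogeneous (i + 2) c S) →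
      ∃ A ⊆ range N, A.card = i + 1 ∧ (2 : ℝ) ^ (δ * n) < gapChanges c N p A := by
  set q := Fintype.card κ with hq
  rcases Nat.eq_zero_or_pos q with hq0 | hq1
  · refine ⟨1, one_pos, 0, fun n N p _ _ _ c => ?_⟩
    have : 0 < Fintype.card κ := Fintype.card_pos_iff.2 ⟨c ∅⟩
    omega
  have hqr : (1 : ℝ) ≤ q := by exact_mod_cast hq1
  have hK1 : (1 : ℝ) ≤ Kq q i := by exact_mod_cast Kq_pos q i
  set K : ℝ := (Kq q i : ℝ) with hK
  set η := ε / (4 * K) with hη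
  have hη0 : 0 < η := by positivity
  -- choice of E
  obtain ⟨E', hE'⟩ := exists_nat_gt (8 * (q : ℝ) ^ 2 * (2 * q) / η)
  set E := 2 * E' with hE
  have hEη : 8 * (q : ℝ) ^ 2 * (q * E + 1) ≤ η * 2 ^ E := by
    have h1 : 8 * (q : ℝ) ^ 2 * (2 * q) ≤ η * 2 ^ E' := by
      have h2 : (E' : ℝ) ≤ 2 ^ E' := by exact_mod_cast Nat.lt_two_pow_self.le
      rw [div_lt_iff₀ hη0] at hE'
      nlinarith
    have h3 : (E' : ℝ) + 1 ≤ 2 ^ E' := by exact_mod_cast (Nat.lt_two_pow_self (n := E'))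
    have h4 : (q : ℝ) * E + 1 ≤ 2 * q * (E' + 1) := by
      rw [hE]
      push_cast
      nlinarith
    calc 8 * (q : ℝ) ^ 2 * (q * E + 1) ≤ 8 * (q : ℝ) ^ 2 * (2 * q * (E' + 1)) := by gcongr
      _ = 8 * (q : ℝ) ^ 2 * (2 * q) * (E' + 1) := by ring
      _ ≤ η * 2 ^ E' * 2 ^ E' := by gcongr
      _ = η * 2 ^ E := by rw [hE, two_mul, pow_add]; ring
  set δ := η / (q * E + 1) with hδ
  have hδ0 : 0 < δ := by positivity
  obtain ⟨n₁, hn₁⟩ := exists_nat_gt ((8 * (q : ℝ) ^ 2 * (q * E + 1) + q * E * (4 * q + 1)) / η)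
  obtain ⟨n₂, hn₂⟩ := exists_nat_gt (1 / (4 * η))
  refine ⟨δ, hδ0, max n₁ n₂, fun n N p hn hp hN c hc => ?_⟩
  by_contra hcon
  push Not at hcon
  have hn1 : (n₁ : ℝ) ≤ n := by exact_mod_cast (le_max_left _ _).trans hn
  have hn2 : (n₂ : ℝ) ≤ n := by exact_mod_cast (le_max_right _ _).trans hn
  have hnn : (0 : ℝ) ≤ n := Nat.cast_nonneg n
  set k := ⌊(2 : ℝ) ^ (δ * n)⌋₊ with hk
  have hkM : (k : ℝ) ≤ (2 : ℝ) ^ (δ * n) := Nat.floor_le (by positivity)
  have hchk : ∀ A ⊆ range N, A.card = i + 1 → gapChanges c N p A ≤ k := fun A hA hAc =>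
    Nat.le_floor (hcon A hA hAc)
  set a := n / 2 ^ E + 1 with ha
  have han : n ≤ 2 ^ E * a := by
    have := Nat.lt_mul_div_succ n (pow_pos (by norm_num : 0 < 2) E)
    exact this.le
  have har : (a : ℝ) ≤ n / 2 ^ E + 1 := by
    rw [ha]
    push_cast
    have := Nat.cast_div_le (m := n) (n := 2 ^ E) (α := ℝ)
    push_cast at this
    linarith
  have hL : (k : ℝ) + 1 ≤ (2 : ℝ) ^ (1 + δ * n) := by
    have h1 : (1 : ℝ) ≤ (2 : ℝ) ^ (δ * n) := Real.one_le_rpow (by norm_num) (by positivity)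
    rw [Real.rpow_add (by norm_num), Real.rpow_one]
    linarith
  have hx1 : 1 ≤ 4 * η * n := by
    rw [div_lt_iff₀ (by positivity)] at hn₂
    nlinarith
  have hB0 : (Bq q a E k 0 : ℝ) ≤ (2 : ℝ) ^ (4 * η * n) := by
    refine (Bq_zero (q := q) a E k hL).trans ?_
    apply Real.rpow_le_rpow_of_exponent_le (by norm_num)
    have b1 : 8 * (q : ℝ) ^ 2 * (q * E + 1) * a ≤ η * n + 8 * (q : ℝ) ^ 2 * (q * E + 1) := by
      calc 8 * (q : ℝ) ^ 2 * (q * E + 1) * a ≤ 8 * (q : ℝ) ^ 2 * (q * E + 1) * (n / 2 ^ E + 1) := by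
            gcongr
        _ = 8 * (q : ℝ) ^ 2 * (q * E + 1) * (n / 2 ^ E) + 8 * (q : ℝ) ^ 2 * (q * E + 1) := by ring
        _ ≤ η * 2 ^ E * (n / 2 ^ E) + 8 * (q : ℝ) ^ 2 * (q * E + 1) := by gcongr
        _ = _ := by
          have : (2 : ℝ) ^ E ≠ 0 := by positivity
          field_simp
    have b2 : (q : ℝ) * E * (4 * q + (1 + δ * n)) ≤ q * E * (4 * q + 1) + η * n := by
      have b3 : (q : ℝ) * E * δ ≤ η := by
        rw [hδ]
        have : (0 : ℝ) < q * E + 1 := by positivity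
        rw [mul_div_assoc', div_le_iff₀ this]
        nlinarith
      nlinarith
    have b4 : 8 * (q : ℝ) ^ 2 * (q * E + 1) + q * E * (4 * q + 1) ≤ η * n := by
      rw [div_lt_iff₀ hη0] at hn₁
      nlinarith
    have b5 : 0 ≤ η * n := by positivity
    linarith
  have hB := Bq_le hq1 a E k hx1 hB0 i
  have hfin : (Bq q a E k i : ℝ) ≤ N := by
    have e1 : K * (4 * η * n) = ε * n := by
      rw [hη]
      have : K ≠ 0 := by positivity
      field_simp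
    rw [← hK, e1] at hB
    exact hB.trans hN
  obtain ⟨S, hS, hSc, hh⟩ := sub_homogeneous han
    (all q a E k rfl i p hp N c (by exact_mod_cast hfin) hchk)
  exact hc S hS hSc hh

end Pool.Agent.W2helper90.OA
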