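import Mathlib

/-!
# Colourings of pairs with few colour changes below every vertex
-/

set_option autoImplicit false

namespace Pool.Agent.W2helper90.OA

open Finset

variable {κ : Type} [Fintype κ] [DecidableEq κ]

/-- all pairs of `S` have the colour `i` -/
def MP (f : ℕ → ℕ → κ) (i : κ) (S : Finset ℕ) : Prop := ∀ x ∈ S, ∀ y ∈ S, x < y → f x y = i

/-- the smaller neighbours of `y` in colour `i` -/
def nb (f : ℕ → ℕ → κ) (V : Finset ℕ) (i : κ) (y : ℕ) : Finset ℕ :=
  V.filter fun x => x < y ∧ f x y = i

omit [Fintype κ] in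
theorem mp_insert {f : ℕ → ℕ → κ} {V : Finset ℕ} {i : κ} {y : ℕ} {S : Finset ℕ}
    (hS : S ⊆ nb f V i y) (h : MP f i S) : MP f i (insert y S) := by
  have hlt : ∀ x ∈ S, x < y ∧ f x y = i := fun x hx => (mem_filter.1 (hS hx)).2
  intro x hx z hz hxz
  rw [mem_insert] at hx hz
  rcases hx with rfl | hx
  · rcases hz with rfl | hz
    · omega
    · have := (hlt z hz).1
      omega
  · rcases hz with rfl | hz
    · exact (hlt x hx).2
    · exact h x hx z hz hxz

theorem base (f : ℕ → ℕ → κ) (q : ℕ) (hq : Fintype.card κ = q) (hq1 : 1 ≤ q) :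
    ∀ (n : ℕ) (a : κ → ℕ) (V : Finset ℕ), ∑ i, a i = n → (2 * q) ^ n ≤ V.card →
      ∃ i, ∃ S ⊆ V, MP f i S ∧ S.card = a i := by
  intro n
  induction n with
  | zero =>
    intro a V ha hV
    have : Nonempty κ := Fintype.card_pos_iff.1 (by omega)
    obtain ⟨i⟩ := this
    refine ⟨i, ∅, by simp, ?_, ?_⟩
    · intro x hx
      simp at hx
    · rw [Finset.sum_eq_zero_iff] at ha
      rw [ha i (mem_univ i), card_empty]
  | succ n ih =>
    intro a V ha hV
    by_cases h0 : ∃ i, a i = 0
    · obtain ⟨i, hi⟩ := h0
      refine ⟨i, ∅, by simp, ?_, ?_⟩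
      · intro x hx
        simp at hx
      · rw [hi, card_empty]
    push Not at h0
    have hX : 1 ≤ q * (2 * q) ^ n := Nat.one_le_iff_ne_zero.2 (by positivity)
    have hne : V.Nonempty := by
      rw [← card_pos]
      refine lt_of_lt_of_le ?_ hV
      positivity
    set y := V.max' hne with hy
    have hyV : y ∈ V := V.max'_mem hne
    have hcard : Fintype.card κ * (2 * q) ^ n ≤ (V.erase y).card := by
      rw [hq, card_erase_of_mem hyV]
      rw [pow_succ] at hV
      have : (2 * q) ^ n * (2 * q) = q * (2 * q) ^ n + q * (2 * q) ^ n := by ring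
      omega
    obtain ⟨i, -, hi⟩ := exists_le_card_fiber_of_mul_le_card_of_maps_to
      (s := V.erase y) (t := (univ : Finset κ)) (f := fun x => f x y) (n := (2 * q) ^ n)
      (fun _ _ => mem_univ _) ⟨(Classical.choice (Fintype.card_pos_iff.1 (by omega : 0 < Fintype.card κ))), mem_univ _⟩ hcard
    set W := (V.erase y).filter fun x => f x y = i with hW
    have hWn : W ⊆ nb f V i y := by
      intro x hx
      rw [hW, mem_filter, mem_erase] at hx
      rw [nb, mem_filter]
      exact ⟨hx.1.2, lt_of_le_of_ne (V.le_max' x hx.1.2) hx.1.1, hx.2⟩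
    have hWV : W ⊆ V := fun x hx => (mem_filter.1 (hWn hx)).1
    have hsum : ∑ l, Function.update a i (a i - 1) l = n := by
      rw [← Finset.add_sum_erase _ _ (mem_univ i)] at ha ⊢
      rw [Function.update_self]
      have : ∑ x ∈ univ.erase i, Function.update a i (a i - 1) x = ∑ x ∈ univ.erase i, a x := by
        apply sum_congr rfl
        intro x hx
        rw [Function.update_of_ne (ne_of_mem_erase hx)]
      rw [this]
      have := h0 i
      omega
    obtain ⟨l, S, hS, hm, hc⟩ := ih (Function.update a i (a i - 1)) W hsum hi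
    by_cases hl : l = i
    · subst hl
      refine ⟨l, insert y S, ?_, mp_insert (hS.trans hWn) hm, ?_⟩
      · intro x hx
        rw [mem_insert] at hx
        rcases hx with rfl | hx
        · exact hyV
        · exact hWV (hS hx)
      · rw [card_insert_of_notMem, hc, Function.update_self]
        · have := h0 l
          omega
        · intro hmem
          have := (mem_filter.1 (hWn (hS hmem))).2.1
          omega
    · refine ⟨l, S, hS.trans hWV, hm, ?_⟩
      rw [hc, Function.update_of_ne hl]

omit [Fintype κ] in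
theorem clean (f : ℕ → ℕ → κ) (g : ℕ) (hg : 1 ≤ g) (Z : Finset κ) :
    ∀ (n : ℕ) (a : κ → ℕ) (V : Finset ℕ) (w : ℕ), ∑ i ∈ Z, a i = n →
      (∀ i ∈ Z, ∀ S ⊆ V, MP f i S → S.card < a i) → g ^ n * w ≤ V.card →
      ∃ V' ⊆ V, w ≤ V'.card ∧ ∀ y ∈ V', ∀ i ∈ Z, g * (nb f V' i y).card ≤ V'.card := by
  intro n
  induction n with
  | zero =>
    intro a V w ha hV hw
    refine ⟨V, Subset.rfl, by simpa using hw, ?_⟩
    intro y _ i hi
    rw [Finset.sum_eq_zero_iff] at ha
    have := hV i hi ∅ (by simp) (by intro x hx; simp at hx)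
    rw [ha i hi] at this
    omega
  | succ n ih =>
    intro a V w ha hV hw
    by_cases h : ∀ y ∈ V, ∀ i ∈ Z, g * (nb f V i y).card ≤ V.card
    · refine ⟨V, Subset.rfl, le_trans ?_ hw, h⟩
      exact Nat.le_mul_of_pos_left _ (by positivity)
    push Not at h
    obtain ⟨y, hy, i, hi, hlt⟩ := h
    have hnV : nb f V i y ⊆ V := filter_subset _ _
    have hai : 1 ≤ a i := by
      have := hV i hi ∅ (by simp) (by intro x hx; simp at hx)
      omega
    have hsum : ∑ l ∈ Z, Function.update a i (a i - 1) l = n := by
      rw [← Finset.add_sum_erase _ _ hi] at ha ⊢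
      rw [Function.update_self]
      have : ∑ x ∈ Z.erase i, Function.update a i (a i - 1) x = ∑ x ∈ Z.erase i, a x := by
        apply sum_congr rfl
        intro x hx
        rw [Function.update_of_ne (ne_of_mem_erase hx)]
      rw [this]
      omega
    obtain ⟨V', hV', hw', hgood⟩ := ih (Function.update a i (a i - 1)) (nb f V i y) w hsum (by
      intro l hl S hS hm
      by_cases hli : l = i
      · subst hli
        rw [Function.update_self]
        have h1 := hV l hl (insert y S) (by
          intro x hx
          rw [mem_insert] at hx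
          rcases hx with rfl | hx
          · exact hy
          · exact hnV (hS hx)) (mp_insert hS hm)
        rw [card_insert_of_notMem] at h1
        · omega
        · intro hmem
          have := (mem_filter.1 (hS hmem)).2.1
          omega
      · rw [Function.update_of_ne hli]
        exact hV l hl S (hS.trans hnV) hm) (by
      rw [pow_succ] at hw
      have h1 : g * (g ^ n * w) ≤ g * (nb f V i y).card := by
        calc g * (g ^ n * w) = g ^ n * g * w := by ring
          _ ≤ V.card := hw
          _ ≤ _ := hlt.le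
      exact Nat.le_of_mul_le_mul_left h1 (by omega))
    exact ⟨V', hV'.trans hnV, hw', hgood⟩

omit [Fintype κ] [DecidableEq κ] in
theorem exists_step {f : ℕ → κ} {x y : ℕ} (hxy : x ≤ y) (h : f x ≠ f y) :
    ∃ z, x ≤ z ∧ z < y ∧ f z ≠ f (z + 1) := by
  by_contra hcon
  push Not at hcon
  apply h
  have key : ∀ z, x ≤ z → z ≤ y → f x = f z := by
    intro z hz
    induction z, hz using Nat.le_induction with
    | base => intro _; rfl
    | succ z hz ih =>
      intro h5
      rw [ih (by omega)]
      exact hcon z hz (by omega)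
  exact key y hxy le_rfl

/-- an increasing enumeration -/
theorem enum (S : Finset ℕ) : ∃ x : ℕ → ℕ, (∀ i < S.card, x i ∈ S) ∧
    ∀ i j, i < j → j < S.card → x i < x j := by
  classical
  refine ⟨fun i => if h : i < S.card then S.orderEmbOfFin rfl ⟨i, h⟩ else 0, ?_, ?_⟩
  · intro i hi
    simp only [dif_pos hi]
    exact S.orderEmbOfFin_mem rfl _
  · intro i j hij hj
    simp only [dif_pos hj, dif_pos (hij.trans hj)]
    exact (S.orderEmbOfFin rfl).strictMono (by simpa using hij)

theorem block (f : ℕ → ℕ → κ) (k N q : ℕ) (hq : Fintype.card κ = q) (hq1 : 1 ≤ q)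
    (hk : ∀ y < N, ((range y).filter fun x => x + 1 < y ∧ f x y ≠ f (x + 1) y).card ≤ k)
    (Z : Finset κ) (V : Finset ℕ) (hVN : V ⊆ range N) (w : ℕ) (hw : 1 ≤ w)
    (hV : 4 * q * (k + 1) * w ≤ V.card)
    (hZ : ∀ y ∈ V, ∀ i ∈ Z, 8 * q * (nb f V i y).card ≤ V.card) :
    ∃ i ∉ Z, ∃ B ⊆ V, ∃ U ⊆ V, w ≤ B.card ∧ w ≤ U.card ∧
      ∀ x ∈ B, ∀ y ∈ U, x < y ∧ f x y = i := by
  classical
  have hκ : Nonempty κ := Fintype.card_pos_iff.1 (by omega)
  obtain ⟨x, hxV, hxm⟩ := enum V
  set v := V.card with hv
  set m := 2 * k + 2 with hm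
  set b := v / (2 * m) with hb
  have hm0 : 0 < 2 * m := by omega
  have hbw : w ≤ b := by
    rw [hb, Nat.le_div_iff_mul_le hm0]
    calc w * (2 * m) = 1 * (4 * (k + 1) * w) := by rw [hm]; ring
      _ ≤ q * (4 * (k + 1) * w) := Nat.mul_le_mul_right _ hq1
      _ = 4 * q * (k + 1) * w := by ring
      _ ≤ v := hV
  have hb1 : 1 ≤ b := hw.trans hbw
  have h2mb : 2 * m * b ≤ v := Nat.mul_div_le v (2 * m)
  have hvlt : v < 2 * m * (b + 1) := Nat.lt_mul_div_succ v hm0
  have hmono : ∀ i j, i ≤ j → j < v → x i ≤ x j := by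
    intro i j hij hj
    rcases hij.eq_or_lt with rfl | h
    · exact le_rfl
    · exact (hxm i j h hj).le
  have hxinj : ∀ i j, i < v → j < v → x i = x j → i = j := by
    intro i j hi hj hij
    rcases lt_trichotomy i j with h | h | h
    · exact absurd hij (hxm i j h hj).ne
    · exact h
    · exact absurd hij (hxm j i h hi).ne'
  -- positions of block i
  have hblk : ∀ i < m, ∀ t, t < (i + 1) * b → t < m * b := by
    intro i hi t ht
    refine lt_of_lt_of_le ht (Nat.mul_le_mul_right _ hi)
  have hmbv : m * b ≤ v := by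
    have : 2 * m * b = m * b + m * b := by ring
    omega
  -- every later vertex has a good block
  have hgood : ∀ u, m * b ≤ u → u < v → ∃ p : ℕ × κ, p.1 < m ∧ p.2 ∉ Z ∧
      ∀ t, p.1 * b ≤ t → t < (p.1 + 1) * b → f (x t) (x u) = p.2 := by
    intro u hu1 hu2
    by_contra hcon
    push Not at hcon
    set y := x u with hy
    have hyV : y ∈ V := hxV u hu2
    have hyN : y < N := mem_range.1 (hVN hyV)
    -- bad blocks
    let b1 := (range m).filter fun i => ∃ t, i * b ≤ t ∧ t < (i + 1) * b ∧
      f (x (i * b)) y ≠ f (x t) y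
    let b2 := (range m).filter fun i => ∀ t, i * b ≤ t → t < (i + 1) * b →
      f (x t) y = f (x (i * b)) y
    have hcov : range m ⊆ b1 ∪ b2 := by
      intro i hi
      rw [mem_union]
      by_cases h : ∃ t, i * b ≤ t ∧ t < (i + 1) * b ∧ f (x (i * b)) y ≠ f (x t) y
      · exact Or.inl (mem_filter.2 ⟨hi, h⟩)
      · push Not at h
        exact Or.inr (mem_filter.2 ⟨hi, fun t h1 h2 => (h t h1 h2).symm⟩)
    have hc1 : b1.card ≤ k := by
      have hch : ∀ i ∈ b1, ∃ z, x (i * b) ≤ z ∧ z < x (i * b + (b - 1)) ∧
          f z y ≠ f (z + 1) y := by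
        intro i hi
        obtain ⟨hi1, t, ht1, ht2, ht3⟩ := mem_filter.1 hi
        have him := mem_range.1 hi1
        have htlt : t < m * b := hblk i him t ht2
        have e1 : (i + 1) * b = i * b + b := by ring
        obtain ⟨z, hz1, hz2, hz3⟩ := exists_step (f := fun z => f z y)
          (hmono (i * b) t ht1 (by omega)) ht3
        refine ⟨z, hz1, lt_of_lt_of_le hz2 (hmono _ _ (by omega) ?_), hz3⟩
        have := hblk i him (i * b + (b - 1)) (by omega)
        omega
      choose! g hg using hch
      refine le_trans ?_ (hk y hyN)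
      apply card_le_card_of_injOn g
      · intro i hi
        obtain ⟨h1, h2, h3⟩ := hg i hi
        have him := mem_range.1 (mem_filter.1 hi).1
        have e1 : (i + 1) * b = i * b + b := by ring
        have h4 := hblk i him (i * b + (b - 1)) (by omega)
        have h5 : x (i * b + (b - 1)) < y := hxm _ _ (by omega) hu2
        rw [mem_coe, mem_filter, mem_range]
        exact ⟨by omega, by omega, h3⟩
      · intro i hi i' hi' heq
        obtain ⟨h1, h2, -⟩ := hg i hi
        obtain ⟨h1', h2', -⟩ := hg i' hi'
        have him := mem_range.1 (mem_filter.1 hi).1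
        have him' := mem_range.1 (mem_filter.1 hi').1
        have e1 : (i + 1) * b = i * b + b := by ring
        have e1' : (i' + 1) * b = i' * b + b := by ring
        have h4 := hblk i him (i * b + (b - 1)) (by omega)
        have h4' := hblk i' him' (i' * b + (b - 1)) (by omega)
        rcases lt_trichotomy i i' with h | h | h
        · exfalso
          have h6 : (i + 1) * b ≤ i' * b := Nat.mul_le_mul_right _ h
          have h7 := hmono (i * b + (b - 1)) (i' * b) (by omega) (by omega)
          omega
        · exact h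
        · exfalso
          have h6 : (i' + 1) * b ≤ i * b := Nat.mul_le_mul_right _ h
          have h7 := hmono (i' * b + (b - 1)) (i * b) (by omega) (by omega)
          omega
    have hc2 : b2.card ≤ k := by
      -- the blocks lie in the neighbourhoods of the colours of Z
      let F : ℕ → Finset ℕ := fun i => (Ico (i * b) ((i + 1) * b)).image x
      have hFc : ∀ i ∈ b2, (F i).card = b := by
        intro i hi
        have him := mem_range.1 (mem_filter.1 hi).1
        rw [card_image_of_injOn, Nat.card_Ico]
        · have e1 : (i + 1) * b = i * b + b := by ring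
          omega
        · intro s hs t ht hst
          rw [coe_Ico, Set.mem_Ico] at hs ht
          have := hblk i him s hs.2
          have := hblk i him t ht.2
          exact hxinj s t (by omega) (by omega) hst
      have hdisj : ∀ i ∈ b2, ∀ i' ∈ b2, i ≠ i' → Disjoint (F i) (F i') := by
        intro i hi i' hi' hne
        rw [Finset.disjoint_left]
        intro z hz hz'
        obtain ⟨s, hs, rfl⟩ := mem_image.1 hz
        obtain ⟨t, ht, hst⟩ := mem_image.1 hz'
        rw [mem_Ico] at hs ht
        have him := mem_range.1 (mem_filter.1 hi).1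
        have him' := mem_range.1 (mem_filter.1 hi').1
        have h1 := hblk i him s hs.2
        have h2 := hblk i' him' t ht.2
        have h3 := hxinj t s (by omega) (by omega) hst
        subst h3
        rcases lt_trichotomy i i' with h | h | h
        · have : (i + 1) * b ≤ i' * b := Nat.mul_le_mul_right _ h
          omega
        · exact hne h
        · have : (i' + 1) * b ≤ i * b := Nat.mul_le_mul_right _ h
          omega
      have hsub : b2.biUnion F ⊆ Z.biUnion fun i => nb f V i y := by
        intro z hz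
        rw [mem_biUnion] at hz ⊢
        obtain ⟨i, hi, hz⟩ := hz
        obtain ⟨t, ht, rfl⟩ := mem_image.1 hz
        rw [mem_Ico] at ht
        obtain ⟨hi1, hi2⟩ := mem_filter.1 hi
        have him := mem_range.1 hi1
        have htm := hblk i him t ht.2
        refine ⟨f (x (i * b)) y, ?_, ?_⟩
        · by_contra hnot
          obtain ⟨t', ht1, ht2, ht3⟩ := hcon (i, f (x (i * b)) y) him hnot
          exact ht3 (hi2 t' ht1 ht2)
        · rw [nb, mem_filter]
          exact ⟨hxV t (by omega), hxm t u (by omega) hu2, hi2 t ht.1 ht.2⟩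
      have hcard := card_le_card hsub
      rw [card_biUnion hdisj, sum_congr rfl hFc, sum_const, smul_eq_mul] at hcard
      have hle : 8 * q * (Z.biUnion fun i => nb f V i y).card ≤ q * v := by
        calc 8 * q * (Z.biUnion fun i => nb f V i y).card
            ≤ 8 * q * ∑ i ∈ Z, (nb f V i y).card := Nat.mul_le_mul_left _ card_biUnion_le
          _ = ∑ i ∈ Z, 8 * q * (nb f V i y).card := by rw [mul_sum]
          _ ≤ ∑ _i ∈ Z, v := sum_le_sum (fun i hi => hZ y hyV i hi)
          _ = Z.card * v := by rw [sum_const, smul_eq_mul]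
          _ ≤ q * v := by
            apply Nat.mul_le_mul_right
            rw [← hq]
            exact card_le_univ Z
      have h8 : q * (8 * (b2.card * b)) ≤ q * v := by
        calc q * (8 * (b2.card * b)) = 8 * q * (b2.card * b) := by ring
          _ ≤ 8 * q * (Z.biUnion fun i => nb f V i y).card := Nat.mul_le_mul_left _ hcard
          _ ≤ q * v := hle
      have h9 : 8 * (b2.card * b) ≤ v := Nat.le_of_mul_le_mul_left h8 (by omega)
      have h10 : 8 * (b2.card * b) < 8 * ((k + 1) * b) := by
        calc 8 * (b2.card * b) ≤ v := h9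
          _ < 2 * m * (b + 1) := hvlt
          _ ≤ 2 * m * (b + b) := Nat.mul_le_mul_left _ (by omega)
          _ = 8 * ((k + 1) * b) := by rw [hm]; ring
      have h11 : b2.card * b < (k + 1) * b := by omega
      have := Nat.lt_of_mul_lt_mul_right h11
      omega
    have h1 := card_le_card hcov
    have h2 := card_union_le b1 b2
    rw [card_range] at h1
    omega
  choose! φ hφ using hgood
  -- pigeonhole
  let U₀ := (Ico (m * b) v)
  have hU₀ : (range m ×ˢ (univ : Finset κ)).card * w ≤ U₀.card := by
    rw [card_product, card_range, card_univ, hq, Nat.card_Ico]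
    have h1 : 4 * q * (k + 1) * w = 2 * (m * q * w) := by rw [hm]; ring
    have h2 : 2 * m * b = 2 * (m * b) := by ring
    omega
  obtain ⟨p, hp, hfib⟩ := exists_le_card_fiber_of_mul_le_card_of_maps_to
    (s := U₀) (t := range m ×ˢ (univ : Finset κ)) (f := φ) (n := w)
    (fun u hu => by
      rw [mem_Ico] at hu
      rw [mem_product]
      exact ⟨mem_range.2 (hφ u hu.1 hu.2).1, mem_univ _⟩)
    ⟨(0, Classical.arbitrary κ), by simp [hm]⟩ hU₀
  have hpm : p.1 < m := mem_range.1 (mem_product.1 hp).1
  have hne : (U₀.filter fun u => φ u = p).Nonempty := card_pos.1 (by omega)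
  obtain ⟨u₀, hu₀⟩ := hne
  have hpZ : p.2 ∉ Z := by
    obtain ⟨h1, h2⟩ := mem_filter.1 hu₀
    rw [mem_Ico] at h1
    have := (hφ u₀ h1.1 h1.2).2.1
    rwa [h2] at this
  refine ⟨p.2, hpZ, (Ico (p.1 * b) ((p.1 + 1) * b)).image x, ?_,
    (U₀.filter fun u => φ u = p).image x, ?_, ?_, ?_, ?_⟩
  · intro z hz
    obtain ⟨t, ht, rfl⟩ := mem_image.1 hz
    rw [mem_Ico] at ht
    have := hblk p.1 hpm t ht.2
    exact hxV t (by omega)
  · intro z hz
    obtain ⟨t, ht, rfl⟩ := mem_image.1 hz
    have := mem_Ico.1 (mem_filter.1 ht).1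
    exact hxV t this.2
  · rw [card_image_of_injOn, Nat.card_Ico]
    · have e1 : (p.1 + 1) * b = p.1 * b + b := by ring
      omega
    · intro s hs t ht hst
      rw [coe_Ico, Set.mem_Ico] at hs ht
      have := hblk p.1 hpm s hs.2
      have := hblk p.1 hpm t ht.2
      exact hxinj s t (by omega) (by omega) hst
  · rw [card_image_of_injOn]
    · exact hfib
    · intro s hs t ht hst
      rw [mem_coe, mem_filter, mem_Ico] at hs ht
      exact hxinj s t hs.1.2 ht.1.2 hst
  · intro z hz z' hz'
    obtain ⟨t, ht, rfl⟩ := mem_image.1 hz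
    obtain ⟨u, hu, rfl⟩ := mem_image.1 hz'
    rw [mem_Ico] at ht
    rw [mem_filter, mem_Ico] at hu
    have h1 := hblk p.1 hpm t ht.2
    refine ⟨hxm t u (by omega) hu.1.2, ?_⟩
    have h2 := (hφ u hu.1.1 hu.1.2).2.2
    rw [hu.2] at h2
    exact h2 t ht.1 ht.2

end Pool.Agent.W2helper90.OA
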