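import Pool.Agent.W2helper90.OA.Pairs
import Pool.Agent.W2helper90.FC.Up

/-!
# Few changes in one variable, all uniformities
-/

set_option autoImplicit false

namespace Pool.Agent.W2helper90.OA

open Finset Pool.Agent.TH138.NF Pool.Agent.W2helper90.FC

section
variable {κ : Type}

open Classical in
/-- The number of changes of the colour `c (A ∪ {z})` when `z` runs through the vertices of
`{0, …, N - 1} \ A` which are larger than exactly `p` elements of `A`: the number of `z` such that
`z` and `z + 1` are vertices outside `A`, exactly `p` elements of `A` are smaller than `z`, and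
the colours of `A ∪ {z}` and `A ∪ {z + 1}` are different. -/
noncomputable def gapChanges (c : Finset ℕ → κ) (N p : ℕ) (A : Finset ℕ) : ℕ :=
  ((range N).filter fun z => z + 1 < N ∧ z ∉ A ∧ z + 1 ∉ A ∧
    (A.filter fun x => x < z).card = p ∧ c (insert z A) ≠ c (insert (z + 1) A)).card

open Classical in
theorem gapChanges_le {c : Finset ℕ → κ} {N p : ℕ} {A : Finset ℕ} (T : Finset ℕ)
    (h : ∀ z, z + 1 < N → z ∉ A → z + 1 ∉ A → (A.filter fun x => x < z).card = p →
      c (insert z A) ≠ c (insert (z + 1) A) → z ∈ T) :
    gapChanges c N p A ≤ T.card := by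
  unfold gapChanges
  apply card_le_card
  intro z hz
  rw [mem_filter] at hz
  exact h z hz.2.1 hz.2.2.1 hz.2.2.2.1 hz.2.2.2.2.1 hz.2.2.2.2.2

open Classical in
theorem card_le_gapChanges {c : Finset ℕ → κ} {N p : ℕ} {A : Finset ℕ} (T : Finset ℕ)
    (h : ∀ z ∈ T, z + 1 < N ∧ z ∉ A ∧ z + 1 ∉ A ∧ (A.filter fun x => x < z).card = p ∧
      c (insert z A) ≠ c (insert (z + 1) A)) :
    T.card ≤ gapChanges c N p A := by
  unfold gapChanges
  apply card_le_card
  intro z hz
  rw [mem_filter]
  exact ⟨mem_range.2 (by have := (h z hz).1; omega), h z hz⟩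

theorem gapChanges_le_changes (c : Finset ℕ → κ) (N p : ℕ) (A : Finset ℕ) :
    gapChanges c N p A ≤ changes c N A := by
  classical
  unfold gapChanges
  apply card_le_changes
  intro z hz
  rw [mem_filter] at hz
  exact ⟨hz.2.1, hz.2.2.1, hz.2.2.2.1, hz.2.2.2.2.2⟩

/-- the reflected colouring -/
def refl (c : Finset ℕ → κ) (N : ℕ) (A : Finset ℕ) : κ := c (A.image fun x => N - 1 - x)

theorem gapChanges_refl (c : Finset ℕ → κ) (N s : ℕ) (A : Finset ℕ) (hA : A ⊆ range N)
    (hAc : A.card = s) :
    gapChanges (refl c N) N 0 A ≤ gapChanges c N s (A.image fun x => N - 1 - x) := by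
  classical
  let T := (range N).filter fun z => z + 1 < N ∧ z ∉ A ∧ z + 1 ∉ A ∧
    (A.filter fun x => x < z).card = 0 ∧ refl c N (insert z A) ≠ refl c N (insert (z + 1) A)
  have h1 : gapChanges (refl c N) N 0 A ≤ T.card := by
    apply gapChanges_le
    intro z a1 a2 a3 a4 a5
    rw [mem_filter]
    exact ⟨mem_range.2 (by omega), a1, a2, a3, a4, a5⟩
  refine h1.trans ?_
  have hinj : Set.InjOn (fun z => N - 2 - z) T := by
    intro z hz z' hz' h
    have b1 := (mem_filter.1 hz).2.1
    have b2 := (mem_filter.1 hz').2.1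
    simp only at h
    omega
  rw [← card_image_of_injOn hinj]
  apply card_le_gapChanges
  intro y hy
  obtain ⟨z, hz, rfl⟩ := mem_image.1 hy
  obtain ⟨-, a1, a2, a3, a4, a5⟩ := mem_filter.1 hz
  have hlow : ∀ x ∈ A, z + 1 < x := by
    intro x hx
    have h3 : x ∉ A.filter fun x => x < z := by
      rw [card_eq_zero] at a4
      rw [a4]
      simp
    rw [mem_filter] at h3
    push Not at h3
    have h4 := h3 hx
    have h5 : x ≠ z := fun h => a2 (h ▸ hx)
    have h6 : x ≠ z + 1 := fun h => a3 (h ▸ hx)
    omega
  have hinjA : Set.InjOn (fun x => N - 1 - x) A := by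
    intro x hx x' hx' h
    have g1 := mem_range.1 (hA hx)
    have g2 := mem_range.1 (hA hx')
    simp only at h
    omega
  refine ⟨by omega, ?_, ?_, ?_, ?_⟩
  · intro hmem
    obtain ⟨x, hx, h⟩ := mem_image.1 hmem
    have := hlow x hx
    have g1 := mem_range.1 (hA hx)
    omega
  · intro hmem
    obtain ⟨x, hx, h⟩ := mem_image.1 hmem
    have := hlow x hx
    have g1 := mem_range.1 (hA hx)
    omega
  · rw [filter_true_of_mem, card_image_of_injOn hinjA, hAc]
    intro y hy
    obtain ⟨x, hx, rfl⟩ := mem_image.1 hy
    have := hlow x hx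
    have g1 := mem_range.1 (hA hx)
    omega
  · have e1 : N - 2 - z + 1 = N - 1 - z := by omega
    have e2 : N - 2 - z = N - 1 - (z + 1) := by omega
    rw [e1, e2, ← image_insert (f := fun x => N - 1 - x), ← image_insert (f := fun x => N - 1 - x)]
    exact fun h => a5 h.symm

theorem homogeneous_refl {c : Finset ℕ → κ} {N r : ℕ} {S : Finset ℕ} (hS : S ⊆ range N)
    (h : Homogeneous r (refl c N) S) : Homogeneous r c (S.image fun x => N - 1 - x) := by
  classical
  have hinv : ∀ A ⊆ S.image (fun x => N - 1 - x), (A.image fun x => N - 1 - x) ⊆ S ∧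
      (A.image fun x => N - 1 - x).card = A.card ∧
      (A.image fun x => N - 1 - x).image (fun x => N - 1 - x) = A := by
    intro A hA
    have hlt : ∀ x ∈ A, x < N := by
      intro x hx
      obtain ⟨y, hy, rfl⟩ := mem_image.1 (hA hx)
      have := mem_range.1 (hS hy)
      omega
    refine ⟨?_, ?_, ?_⟩
    · intro x hx
      obtain ⟨y, hy, rfl⟩ := mem_image.1 hx
      obtain ⟨z, hz, rfl⟩ := mem_image.1 (hA hy)
      have := mem_range.1 (hS hz)
      have e : N - 1 - (N - 1 - z) = z := by omega
      simp only [e]
      exact hz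
    · apply card_image_of_injOn
      intro x hx y hy hxy
      have g1 := hlt x hx
      have g2 := hlt y hy
      simp only at hxy
      omega
    · rw [image_image]
      conv_rhs => rw [← image_id (s := A)]
      apply image_congr
      intro x hx
      have g1 := hlt x hx
      simp only [Function.comp, id]
      omega
  intro A hA B hB hAc hBc
  obtain ⟨a1, a2, a3⟩ := hinv A hA
  obtain ⟨b1, b2, b3⟩ := hinv B hB
  have := h _ a1 _ b1 (by omega) (by omega)
  unfold refl at this
  rwa [a3, b3] at this

theorem gapChanges_rado {c : Finset ℕ → κ} {N t w p : ℕ} {v : ℕ → ℕ} (hw : w < N)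
    (hv : ∀ i j, i < j → j < t → v i < v j) (hvw : ∀ i < t, v i < w) {A : Finset ℕ}
    (hA : A ⊆ range t) :
    gapChanges (fun S => c (insert w (S.image v))) t p A ≤
      gapChanges c N p (insert w (A.image v)) := by
  classical
  set A' := insert w (A.image v) with hA'
  have hcol : ∀ z, c (insert w ((insert z A).image v)) = c (insert (v z) A') := by
    intro z
    rw [image_insert, hA', Finset.insert_comm]
  have hmono : ∀ i j, i ≤ j → j < t → v i ≤ v j := by
    intro i j hij hj
    rcases hij.eq_or_lt with rfl | h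
    · exact le_rfl
    · exact (hv i j h hj).le
  have hinj : ∀ i j, i < t → j < t → v i = v j → i = j := by
    intro i j hi hj hij
    rcases lt_trichotomy i j with h | h | h
    · exact absurd hij (hv i j h hj).ne
    · exact h
    · exact absurd hij (hv j i h hi).ne'
  let T := (range t).filter fun z => z + 1 < t ∧ z ∉ A ∧ z + 1 ∉ A ∧
    (A.filter fun x => x < z).card = p ∧ c (insert (v z) A') ≠ c (insert (v (z + 1)) A')
  have hT : gapChanges (fun S => c (insert w (S.image v))) t p A ≤ T.card := by
    apply gapChanges_le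
    intro z h1 h2 h3 h5 h4
    rw [mem_filter]
    refine ⟨mem_range.2 (by omega), h1, h2, h3, h5, ?_⟩
    rw [← hcol, ← hcol]
    exact h4
  refine hT.trans ?_
  have hch : ∀ z ∈ T, ∃ y, v z ≤ y ∧ y < v (z + 1) ∧
      c (insert y A') ≠ c (insert (y + 1) A') := by
    intro z hz
    rw [mem_filter] at hz
    obtain ⟨-, h1, h2, h3, h5, h4⟩ := hz
    exact exists_step (f := fun y => c (insert y A')) (hmono z (z + 1) (by omega) h1) h4
  choose! g hg using hch
  have hout : ∀ z ∈ T, ∀ y, v z ≤ y → y ≤ v (z + 1) → y ∉ A' := by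
    intro z hz y h5 h6 hmem
    rw [mem_filter] at hz
    obtain ⟨-, h1, h2, h3, -, h4⟩ := hz
    rw [hA', mem_insert, mem_image] at hmem
    rcases hmem with h7 | ⟨a, ha, h7⟩
    · have := hvw (z + 1) h1
      omega
    · have hat := mem_range.1 (hA ha)
      have hza : a ≠ z := fun h => h2 (h ▸ ha)
      have hza' : a ≠ z + 1 := fun h => h3 (h ▸ ha)
      rcases lt_or_gt_of_ne hza with h | h
      · have := hv a z h (by omega)
        omega
      · have := hv (z + 1) a (by omega) hat
        omega
  have hginj : Set.InjOn g T := by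
    intro z hz z' hz' heq
    have a1 := hg z hz
    have a2 := hg z' hz'
    have b1 := (mem_filter.1 hz).2.1
    have b2 := (mem_filter.1 hz').2.1
    rcases lt_trichotomy z z' with h | h | h
    · have := hmono (z + 1) z' h (by omega)
      omega
    · exact h
    · have := hmono (z' + 1) z h (by omega)
      omega
  rw [← card_image_of_injOn hginj]
  apply card_le_gapChanges
  intro y hy
  rw [mem_image] at hy
  obtain ⟨z, hz, rfl⟩ := hy
  obtain ⟨h5, h6, h7⟩ := hg z hz
  have h1 := (mem_filter.1 hz).2.1
  have h2 := (mem_filter.1 hz).2.2.1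
  have h8 := (mem_filter.1 hz).2.2.2.2.1
  have h9 := hvw (z + 1) h1
  refine ⟨by omega, hout z hz _ h5 h6.le, hout z hz _ (by omega) (by omega), ?_, h7⟩
  have e : (A'.filter fun x => x < g z) = (A.filter fun x => x < z).image v := by
    ext x
    rw [mem_filter, hA', mem_insert, mem_image, mem_image]
    constructor
    · rintro ⟨rfl | ⟨a, ha, rfl⟩, hx⟩
      · omega
      · refine ⟨a, mem_filter.2 ⟨ha, ?_⟩, rfl⟩
        by_contra hle
        have hat := mem_range.1 (hA ha)
        have h10 : a ≠ z := fun h => h2 (h ▸ ha)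
        have := hmono (z + 1) a (by omega) hat
        omega
    · rintro ⟨a, ha, rfl⟩
      rw [mem_filter] at ha
      refine ⟨Or.inr ⟨a, ha.1, rfl⟩, ?_⟩
      have := hv a z ha.2 (by omega)
      omega
  rw [e, card_image_of_injOn, h8]
  intro a ha b hb hab
  rw [mem_coe, mem_filter] at ha hb
  exact hinj a b (mem_range.1 (hA ha.1)) (mem_range.1 (hA hb.1)) hab

end

/-- The number of vertices which is enough for uniformity `i + 2`. -/
def Bq (q a E k : ℕ) : ℕ → ℕ
  | 0 => ((8 * q) ^ (q * a) * (4 * q * (k + 1))) ^ (q * E) * (8 * q) ^ (q * a)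
  | i + 1 => (2 * q ^ ((i + 2) * Bq q a E k i ^ (i + 1))) ^ Bq q a E k i

variable {κ : Type} [Fintype κ]

omit [Fintype κ] in
theorem refl_step {c : Finset ℕ → κ} {N s k n r : ℕ}
    (hc : ∀ A ⊆ range N, A.card = s → gapChanges c N s A ≤ k)
    (h : ∀ c' : Finset ℕ → κ, (∀ A ⊆ range N, A.card = s → gapChanges c' N 0 A ≤ k) →
      ∃ S ⊆ range N, S.card = n ∧ Homogeneous r c' S) :
    ∃ S ⊆ range N, S.card = n ∧ Homogeneous r c S := by
  classical
  obtain ⟨S, hS, hSc, hh⟩ := h (refl c N) (by
    intro A hA hAc
    refine (gapChanges_refl c N s A hA hAc).trans (hc _ ?_ ?_)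
    · intro x hx
      obtain ⟨y, hy, rfl⟩ := mem_image.1 hx
      have := mem_range.1 (hA hy)
      exact mem_range.2 (by omega)
    · rw [card_image_of_injOn, hAc]
      intro x hx y hy hxy
      have g1 := mem_range.1 (hA hx)
      have g2 := mem_range.1 (hA hy)
      simp only at hxy
      omega)
  refine ⟨S.image fun x => N - 1 - x, ?_, ?_, homogeneous_refl hS hh⟩
  · intro x hx
    obtain ⟨y, hy, rfl⟩ := mem_image.1 hx
    have := mem_range.1 (hS hy)
    exact mem_range.2 (by omega)
  · rw [card_image_of_injOn, hSc]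
    intro x hx y hy hxy
    have g1 := mem_range.1 (hS hx)
    have g2 := mem_range.1 (hS hy)
    simp only at hxy
    omega

theorem all (q a E k : ℕ) (hq : Fintype.card κ = q) (i : ℕ) : ∀ p, p ≤ i + 1 →
    ∀ (N : ℕ) (c : Finset ℕ → κ), Bq q a E k i ≤ N →
    (∀ A ⊆ range N, A.card = i + 1 → gapChanges c N p A ≤ k) →
    ∃ S ⊆ range N, S.card = 2 ^ E * a ∧ Homogeneous (i + 2) c S := by
  classical
  induction i with
  | zero =>
    have h0 : ∀ (N : ℕ) (c : Finset ℕ → κ), Bq q a E k 0 ≤ N →
        (∀ A ⊆ range N, A.card = 1 → gapChanges c N 0 A ≤ k) →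
        ∃ S ⊆ range N, S.card = 2 ^ E * a ∧ Homogeneous 2 c S := by
      intro N c hN hc
      have hq1 : 1 ≤ q := by
        rw [← hq]
        exact Fintype.card_pos_iff.2 ⟨c ∅⟩
      obtain ⟨i, S, hS, hm, hcard⟩ := core (fun x y => c {x, y}) k N q hq hq1 (by
        intro y hy
        refine le_trans ?_ (hc {y} (by simpa using hy) (card_singleton y))
        apply card_le_gapChanges
        intro z hz
        rw [mem_filter, mem_range] at hz
        refine ⟨by omega, ?_, ?_, ?_, hz.2.2⟩
        · rw [mem_singleton]
          omega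
        · rw [mem_singleton]
          omega
        · rw [card_eq_zero, filter_eq_empty_iff]
          intro x hx
          rw [mem_singleton] at hx
          omega) a (q * E) (fun _ => E) (range N) Subset.rfl (by
        rw [sum_const, card_univ, hq, smul_eq_mul]) (by rw [card_range]; exact hN)
      refine ⟨S, hS, hcard, ?_⟩
      have key : ∀ A ⊆ S, A.card = 2 → c A = i := by
        intro A hA hAc
        obtain ⟨x, y, hxy, rfl⟩ := card_eq_two.1 hAc
        have hx : x ∈ S := hA (by simp)
        have hy : y ∈ S := hA (by simp)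
        rcases lt_or_gt_of_ne hxy with h | h
        · exact hm x hx y hy h
        · rw [pair_comm]
          exact hm y hy x hx h
      intro A hA B hB hAc hBc
      rw [key A hA hAc, key B hB hBc]
    intro p hp N c hN hc
    rcases Nat.lt_or_ge 0 p with h | h
    · have hp1 : p = 1 := by omega
      subst hp1
      exact refl_step (s := 1) hc (fun c' hc' => h0 N c' hN hc')
    · have hp0 : p = 0 := by omega
      subst hp0
      exact h0 N c hN hc
  | succ i ih =>
    have hmain : ∀ p, p ≤ i + 1 → ∀ (N : ℕ) (c : Finset ℕ → κ), Bq q a E k (i + 1) ≤ N →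
        (∀ A ⊆ range N, A.card = i + 2 → gapChanges c N p A ≤ k) →
        ∃ S ⊆ range N, S.card = 2 ^ E * a ∧ Homogeneous (i + 3) c S := by
      intro p hp N c hN hc
      set t := Bq q a E k i with ht
      obtain ⟨v, w, hw, hvm, hvw, hcol⟩ := rado c (i + 1) t N (by
        rw [hq]
        exact hN)
      have hinj : Set.InjOn v (range t : Finset ℕ) := by
        intro a ha b hb hab
        have ha' := mem_range.1 ha
        have hb' := mem_range.1 hb
        rcases lt_trichotomy a b with h | h | h
        · exact absurd hab (hvm a b h hb').ne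
        · exact h
        · exact absurd hab (hvm b a h ha').ne'
      obtain ⟨S, hS, hcard, hhom⟩ := ih p hp t (fun S => c (insert w (S.image v))) le_rfl (by
        intro A hA hAc
        refine (gapChanges_rado hw hvm hvw hA).trans (hc _ ?_ ?_)
        · intro x hx
          rw [mem_insert, mem_image] at hx
          rw [mem_range]
          rcases hx with rfl | ⟨a, ha, rfl⟩
          · exact hw
          · exact (hvw a (mem_range.1 (hA ha))).trans hw
        · rw [card_insert_of_notMem, card_image_of_injOn (hinj.mono (by exact_mod_cast hA)), hAc]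
          intro hmem
          rw [mem_image] at hmem
          obtain ⟨a, ha, h⟩ := hmem
          exact (hvw a (mem_range.1 (hA ha))).ne h)
      refine ⟨S.image v, ?_, ?_, ?_⟩
      · intro x hx
        rw [mem_image] at hx
        obtain ⟨a, ha, rfl⟩ := hx
        exact mem_range.2 ((hvw a (mem_range.1 (hS ha))).trans hw)
      · rw [card_image_of_injOn (hinj.mono (by exact_mod_cast hS)), hcard]
      · have hone : ∀ A ⊆ S.image v, A.card = i + 3 → ∃ A' ⊆ S, A'.card = i + 2 ∧
            c A = c (insert w (A'.image v)) := by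
          intro A hA hAc
          obtain ⟨B, hB, rfl⟩ := Finset.subset_image_iff.1 hA
          have hBS : B ⊆ S := by exact_mod_cast hB
          have hBc : B.card = i + 1 + 2 := by
            rw [card_image_of_injOn (hinj.mono (by exact_mod_cast hBS.trans hS))] at hAc
            omega
          have hne : B.Nonempty := card_pos.1 (by omega)
          refine ⟨B.erase (B.max' hne), (erase_subset _ _).trans hBS, ?_, ?_⟩
          · rw [card_erase_of_mem (B.max'_mem hne), hBc]
            omega
          · exact hcol B (hBS.trans hS) hBc _ (B.max'_mem hne) (fun i hi => B.le_max' i hi)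
        intro A hA B hB hAc hBc
        obtain ⟨A', hA', hA'c, hA''⟩ := hone A hA hAc
        obtain ⟨B', hB', hB'c, hB''⟩ := hone B hB hBc
        rw [hA'', hB'']
        exact hhom A' hA' B' hB' hA'c hB'c
    intro p hp N c hN hc
    rcases Nat.lt_or_ge p (i + 2) with h | h
    · exact hmain p (by omega) N c hN hc
    · have hpi : p = i + 2 := by omega
      subst hpi
      exact refl_step (s := i + 2) hc (fun c' hc' => hmain 0 (by omega) N c' hN hc')

end Pool.Agent.W2helper90.OA
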