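import Pool.Agent.W2helper90.OA.Core

/-!
# Homogeneous sets in colourings of pairs with few changes
-/

set_option autoImplicit false

namespace Pool.Agent.W2helper90.OA

open Finset

variable {κ : Type} [Fintype κ] [DecidableEq κ]

theorem core (f : ℕ → ℕ → κ) (k N q : ℕ) (hq : Fintype.card κ = q) (hq1 : 1 ≤ q)
    (hk : ∀ y < N, ((range y).filter fun x => x + 1 < y ∧ f x y ≠ f (x + 1) y).card ≤ k)
    (a : ℕ) : ∀ (n : ℕ) (e : κ → ℕ) (V : Finset ℕ), V ⊆ range N → ∑ i, e i = n →
      ((8 * q) ^ (q * a) * (4 * q * (k + 1))) ^ n * (8 * q) ^ (q * a) ≤ V.card →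
      ∃ i, ∃ S ⊆ V, MP f i S ∧ S.card = 2 ^ e i * a := by
  set G := (8 * q) ^ (q * a) with hG
  have hG1 : 1 ≤ G := Nat.one_le_pow _ _ (by omega)
  set D := 4 * q * (k + 1) with hD
  have hD1 : 1 ≤ D := by
    rw [hD]
    exact Nat.one_le_iff_ne_zero.2 (by positivity)
  intro n
  induction n with
  | zero =>
    intro e V hVN he hV
    rw [pow_zero, one_mul] at hV
    obtain ⟨i, S, hS, hm, hc⟩ := base f q hq hq1 (q * a) (fun _ => a) V (by
      rw [sum_const, card_univ, hq, smul_eq_mul]) ((Nat.pow_le_pow_left (by omega) _).trans hV)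
    refine ⟨i, S, hS, hm, ?_⟩
    rw [Finset.sum_eq_zero_iff] at he
    rw [hc, he i (mem_univ i), pow_zero, one_mul]
  | succ n ih =>
    intro e V hVN he hV
    set Z := (univ : Finset κ).filter fun i => e i = 0 with hZ
    by_cases hZc : ∃ i ∈ Z, ∃ S ⊆ V, MP f i S ∧ a ≤ S.card
    · obtain ⟨i, hi, S, hS, hm, hc⟩ := hZc
      obtain ⟨T, hT, hTc⟩ := exists_subset_card_eq hc
      refine ⟨i, T, hT.trans hS, fun x hx y hy => hm x (hT hx) y (hT hy), ?_⟩
      rw [hTc, (mem_filter.1 hi).2, pow_zero, one_mul]
    push Not at hZc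
    set W := (G * D) ^ n * G with hW
    have hW1 : 1 ≤ W := Nat.one_le_iff_ne_zero.2 (by positivity)
    have hVW : (8 * q) ^ (∑ i ∈ Z, a) * (D * W) ≤ V.card := by
      calc (8 * q) ^ (∑ i ∈ Z, a) * (D * W) ≤ G * (D * W) := by
            apply Nat.mul_le_mul_right
            rw [hG]
            apply Nat.pow_le_pow_right (by omega)
            rw [sum_const, smul_eq_mul]
            apply Nat.mul_le_mul_right
            rw [← hq]
            exact card_le_univ Z
        _ = (G * D) ^ (n + 1) * G := by rw [hW, pow_succ]; ring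
        _ ≤ V.card := hV
    obtain ⟨V', hV', hV'c, hgood⟩ := clean f (8 * q) (by omega) Z _ (fun _ => a) V (D * W) rfl
      hZc hVW
    obtain ⟨i, hiZ, B, hB, U, hU, hBc, hUc, hcross⟩ := block f k N q hq hq1 hk Z V'
      (hV'.trans hVN) W hW1 hV'c hgood
    have hei : 1 ≤ e i := by
      by_contra h
      exact hiZ (mem_filter.2 ⟨mem_univ _, by omega⟩)
    have hsum : ∑ l, Function.update e i (e i - 1) l = n := by
      rw [← Finset.add_sum_erase _ _ (mem_univ i)] at he ⊢
      rw [Function.update_self]
      have : ∑ x ∈ univ.erase i, Function.update e i (e i - 1) x = ∑ x ∈ univ.erase i, e x := by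
        apply sum_congr rfl
        intro x hx
        rw [Function.update_of_ne (ne_of_mem_erase hx)]
      rw [this]
      omega
    obtain ⟨l, S, hS, hm, hc⟩ := ih _ B ((hB.trans hV').trans hVN) hsum hBc
    obtain ⟨l', S', hS', hm', hc'⟩ := ih _ U ((hU.trans hV').trans hVN) hsum hUc
    by_cases hl : l = i
    · subst hl
      by_cases hl' : l' = l
      · subst hl'
        refine ⟨l', S ∪ S', union_subset (hS.trans (hB.trans hV')) (hS'.trans (hU.trans hV')),
          ?_, ?_⟩
        · intro x hx y hy hxy
          rw [mem_union] at hx hy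
          rcases hx with hx | hx
          · rcases hy with hy | hy
            · exact hm x hx y hy hxy
            · exact (hcross x (hS hx) y (hS' hy)).2
          · rcases hy with hy | hy
            · have := (hcross y (hS hy) x (hS' hx)).1
              omega
            · exact hm' x hx y hy hxy
        · rw [card_union_of_disjoint, hc, hc', Function.update_self]
          · obtain ⟨t, ht⟩ : ∃ t, e l' = t + 1 := ⟨e l' - 1, by omega⟩
            rw [ht, Nat.add_sub_cancel, pow_succ]
            ring
          · rw [Finset.disjoint_left]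
            intro x hx hx'
            have := (hcross x (hS hx) x (hS' hx')).1
            omega
      · refine ⟨l', S', hS'.trans (hU.trans hV'), hm', ?_⟩
        rw [hc', Function.update_of_ne hl']
    · refine ⟨l, S, hS.trans (hB.trans hV'), hm, ?_⟩
      rw [hc, Function.update_of_ne hl]

end Pool.Agent.W2helper90.OA
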