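import Pool.Agent.TH138.NF.Main
import Pool.Agent.W2helper90.OA.Gap
import Pool.Agent.W2helper90.FC.Four

/-!
# Stepping up with few changes: one step
-/

set_option autoImplicit false

namespace Pool.Agent.W2helper90.OA

open Finset Pool.Agent.TH138.NF Pool.Agent.W2helper90.FC

/-- insertion of a vertex -/
abbrev ins {m : ℕ} (p : Fin (m + 1)) (z : ℕ) (w : Fin m → ℕ) : Fin (m + 1) → ℕ :=
  Fin.insertNth (α := fun _ => ℕ) p z w

open Classical in
/-- the set of changes of the colour when the vertex number `p` moves -/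
noncomputable def tcs {κ : Type} {r : ℕ} (P : Protocol κ r) (M : ℕ) (p : Fin (r + 1))
    (w : Fin r → ℕ) : Finset ℕ :=
  (range M).filter fun z => z + 1 < M ∧ StrictMono (ins p z w) ∧ StrictMono (ins p (z + 1) w) ∧
    P.run (ins p z w) ≠ P.run (ins p (z + 1) w)

theorem mem_tcs {κ : Type} {r : ℕ} {P : Protocol κ r} {M : ℕ} {p : Fin (r + 1)}
    {w : Fin r → ℕ} {z : ℕ} : z ∈ tcs P M p w ↔ z + 1 < M ∧ StrictMono (ins p z w) ∧
      StrictMono (ins p (z + 1) w) ∧ P.run (ins p z w) ≠ P.run (ins p (z + 1) w) := by
  classical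
  unfold tcs
  rw [mem_filter, mem_range]
  constructor
  · exact fun h => h.2
  · exact fun h => ⟨by omega, h⟩

theorem same_type {m : ℕ} (p : Fin (m + 1)) (w : Fin m → ℕ) (v v' : ℕ)
    (h : ∀ i, (w i < v ∧ w i < v') ∨ (v < w i ∧ v' < w i)) (i j : Fin (m + 1)) :
    ins p v w i < ins p v w j ↔ ins p v' w i < ins p v' w j := by
  cases i using Fin.succAboveCases p with
  | x =>
    cases j using Fin.succAboveCases p with
    | x => simp [ins]
    | p j =>
      simp only [ins, Fin.insertNth_apply_same, Fin.insertNth_apply_succAbove]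
      have := h j
      omega
  | p i =>
    cases j using Fin.succAboveCases p with
    | x =>
      simp only [ins, Fin.insertNth_apply_same, Fin.insertNth_apply_succAbove]
      have := h i
      omega
    | p j => simp only [ins, Fin.insertNth_apply_succAbove]

open Classical in
/-- the stepped-up colour as a function of the digits -/
noncomputable def SF {t : ℕ} (P : Protocol (Bool × Bool) (t + 2)) (d : Fin (t + 3) → ℕ) :
    Bool × Bool :=
  if StrictMono d then P.run d else if StrictAnti d then P.run (fun i => d i.rev)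
  else if d 0 < d 1 then (false, false) else if d 2 < d 1 then (false, false) else (true, true)

theorem run_step {t : ℕ} (P : Protocol (Bool × Bool) (t + 2)) (x : Fin (t + 4) → ℕ)
    (hx : StrictMono x) : P.step.run x = SF P (D x) := by
  unfold SF
  by_cases h1 : StrictMono (D x)
  · rw [if_pos h1, run_inc P x hx h1]
  rw [if_neg h1]
  by_cases h2 : StrictAnti (D x)
  · rw [if_pos h2, run_dec P x hx h2]
  rw [if_neg h2]
  have i0 : D ((Fin.last (t + 3)).removeNth x) 0 = D x 0 := by rw [D_init]; rfl
  have i1 : D ((Fin.last (t + 3)).removeNth x) 1 = D x 1 := by rw [D_init]; rfl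
  have t0 : D ((0 : Fin (t + 4)).removeNth x) 0 = D x 1 := by rw [D_tail]; rfl
  have t1 : D ((0 : Fin (t + 4)).removeNth x) 1 = D x 2 := by rw [D_tail]; rfl
  rw [run_loc]
  · simp only [loc, Protocol.run, i0, i1, t0, t1, decide_eq_true_eq]
  · rintro ⟨g1, g2⟩
    apply h1
    rw [Fin.strictMono_iff_lt_succ]
    intro i
    refine Fin.lastCases ?_ (fun i => ?_) i
    · have := g2 (a := (Fin.last t).castSucc) (b := Fin.last (t + 1)) (by
        rw [← Fin.succ_last]
        exact Fin.castSucc_lt_succ)
      rw [D_tail, D_tail] at this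
      exact this
    · have := g1 (a := i.castSucc) (b := i.succ) Fin.castSucc_lt_succ
      rw [D_init, D_init] at this
      rw [Fin.succ_castSucc]
      exact this
  · rintro ⟨g1, g2⟩
    apply h2
    rw [Fin.strictAnti_iff_succ_lt]
    intro i
    refine Fin.lastCases ?_ (fun i => ?_) i
    · have := g2 (a := (Fin.last t).castSucc) (b := Fin.last (t + 1)) (by
        rw [← Fin.succ_last]
        exact Fin.castSucc_lt_succ)
      rw [D_tail, D_tail] at this
      exact this
    · have := g1 (a := i.castSucc) (b := i.succ) Fin.castSucc_lt_succ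
      rw [D_init, D_init] at this
      rw [Fin.succ_castSucc]
      exact this

/-- Counting changes of the stepped-up colour along a family of disjoint intervals. -/
theorem count {t : ℕ} (P : Protocol (Bool × Bool) (t + 2)) (M B : ℕ)
    (hB : ∀ p (w : Fin (t + 2) → ℕ), (∀ i, w i < M) → (tcs P M p w).card ≤ B)
    (p : Fin (t + 3)) (w : Fin (t + 2) → ℕ) (hw : ∀ i, w i < M) (T : Finset ℕ) (lo hi : ℕ → ℕ)
    (h1 : ∀ z ∈ T, lo z < hi z) (h2 : ∀ z ∈ T, hi z < M)
    (h3 : ∀ z ∈ T, ∀ z' ∈ T, z ≠ z' → hi z ≤ lo z' ∨ hi z' ≤ lo z)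
    (h4 : ∀ z ∈ T, SF P (ins p (lo z) w) ≠ SF P (ins p (hi z) w)) :
    T.card ≤ 2 * B + 2 * (t + 2) := by
  classical
  let Ta := T.filter fun z => ∃ i, lo z ≤ w i ∧ w i ≤ hi z
  let Tm := T.filter fun z => (∀ i, w i < lo z ∨ hi z < w i) ∧ StrictMono (ins p (lo z) w)
  let Td := T.filter fun z => (∀ i, w i < lo z ∨ hi z < w i) ∧ StrictAnti (ins p (lo z) w)
  -- the same order type
  have htype : ∀ z ∈ T, (∀ i, w i < lo z ∨ hi z < w i) → ∀ v v', lo z ≤ v → v ≤ hi z →
      lo z ≤ v' → v' ≤ hi z → ∀ i j, ins p v w i < ins p v w j ↔ ins p v' w i < ins p v' w j := by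
    intro z hz hno v v' a1 a2 a3 a4
    apply same_type
    intro i
    have := hno i
    omega
  have hcov : T ⊆ Ta ∪ (Tm ∪ Td) := by
    intro z hz
    by_cases ha : ∃ i, lo z ≤ w i ∧ w i ≤ hi z
    · exact mem_union_left _ (mem_filter.2 ⟨hz, ha⟩)
    · push Not at ha
      have hno : ∀ i, w i < lo z ∨ hi z < w i := by
        intro i
        have := ha i
        omega
      have hty := htype z hz hno (lo z) (hi z) le_rfl (h1 z hz).le (h1 z hz).le le_rfl
      by_cases hm : StrictMono (ins p (lo z) w)
      · exact mem_union_right _ (mem_union_left _ (mem_filter.2 ⟨hz, hno, hm⟩))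
      · by_cases hd : StrictAnti (ins p (lo z) w)
        · exact mem_union_right _ (mem_union_right _ (mem_filter.2 ⟨hz, hno, hd⟩))
        · exfalso
          apply h4 z hz
          have hm' : ¬ StrictMono (ins p (hi z) w) := fun h => hm (fun a b hab =>
            (hty a b).2 (h hab))
          have hd' : ¬ StrictAnti (ins p (hi z) w) := fun h => hd (fun a b hab =>
            (hty b a).2 (h hab))
          unfold SF
          rw [if_neg hm, if_neg hm', if_neg hd, if_neg hd']
          simp only [hty]
  have hTa : Ta.card ≤ 2 * (t + 2) := by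
    have hch : ∀ z ∈ Ta, ∃ i, lo z ≤ w i ∧ w i ≤ hi z := fun z hz => (mem_filter.1 hz).2
    choose! g hg using hch
    have hle : Ta.card ≤ (univ : Finset (Fin (t + 2) × Bool)).card := by
      apply card_le_card_of_injOn (fun z => (g z, decide (lo z = w (g z))))
      · intro z _
        exact mem_coe.2 (mem_univ _)
      · intro z hz z' hz' heq
        by_contra hne
        obtain ⟨a1, a2⟩ := hg z hz
        obtain ⟨b1, b2⟩ := hg z' hz'
        have hzT := (mem_filter.1 hz).1
        have hzT' := (mem_filter.1 hz').1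
        simp only [Prod.mk.injEq] at heq
        obtain ⟨e1, e2⟩ := heq
        rw [e1] at a1 a2 e2
        have e3 : (lo z = w (g z')) ↔ (lo z' = w (g z')) := by
          simpa using e2
        have c1 := h1 z hzT
        have c2 := h1 z' hzT'
        rcases h3 z hzT z' hzT' hne with h | h
        · omega
        · omega
    rw [card_univ, Fintype.card_prod, Fintype.card_fin, Fintype.card_bool] at hle
    omega
  have hTm : Tm.card ≤ B := by
    have hch : ∀ z ∈ Tm, ∃ y, lo z ≤ y ∧ y < hi z ∧
        P.run (ins p y w) ≠ P.run (ins p (y + 1) w) := by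
      intro z hz
      obtain ⟨hzT, hno, hm⟩ := mem_filter.1 hz
      have hty := htype z hzT hno (lo z) (hi z) le_rfl (h1 z hzT).le (h1 z hzT).le le_rfl
      have hm' : StrictMono (ins p (hi z) w) := fun a b hab => (hty a b).1 (hm hab)
      apply exists_step (f := fun y => P.run (ins p y w)) (h1 z hzT).le
      have h5 := h4 z hzT
      unfold SF at h5
      rw [if_pos hm, if_pos hm'] at h5
      exact h5
    choose! g hg using hch
    have hinj : Set.InjOn g Tm := by
      intro z hz z' hz' heq
      by_contra hne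
      have a1 := hg z hz
      have a2 := hg z' hz'
      rcases h3 z (mem_filter.1 hz).1 z' (mem_filter.1 hz').1 hne with h | h <;> omega
    refine le_trans ?_ (hB p w hw)
    apply card_le_card_of_injOn g _ hinj
    intro z hz
    obtain ⟨hzT, hno, hm⟩ := mem_filter.1 hz
    obtain ⟨b1, b2, b3⟩ := hg z hz
    have h6 := h2 z hzT
    rw [mem_coe, mem_tcs]
    refine ⟨by omega, ?_, ?_, b3⟩
    · intro a b hab
      exact (htype z hzT hno (lo z) (g z) le_rfl (h1 z hzT).le b1 b2.le a b).1 (hm hab)
    · intro a b hab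
      exact (htype z hzT hno (lo z) (g z + 1) le_rfl (h1 z hzT).le (by omega) (by omega) a b).1
        (hm hab)
  have hTd : Td.card ≤ B := by
    have hrev : ∀ v, (fun i => ins p v w (Fin.rev i)) = ins p.rev v (fun i => w i.rev) := by
      intro v
      exact Fin.insertNth_comp_rev p v w
    have hch : ∀ z ∈ Td, ∃ y, lo z ≤ y ∧ y < hi z ∧
        P.run (ins p.rev y (fun i => w i.rev)) ≠ P.run (ins p.rev (y + 1) (fun i => w i.rev)) := by
      intro z hz
      obtain ⟨hzT, hno, hd⟩ := mem_filter.1 hz
      have hty := htype z hzT hno (lo z) (hi z) le_rfl (h1 z hzT).le (h1 z hzT).le le_rfl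
      have hd' : StrictAnti (ins p (hi z) w) := fun a b hab => (hty b a).1 (hd hab)
      have n1 : ¬ StrictMono (ins p (lo z) w) := by
        intro h
        have e1 := h (a := 0) (b := 1) (by simp)
        have e2 := hd (a := 0) (b := 1) (by simp)
        exact lt_asymm e1 e2
      have n2 : ¬ StrictMono (ins p (hi z) w) := by
        intro h
        have e1 := h (a := 0) (b := 1) (by simp)
        have e2 := hd' (a := 0) (b := 1) (by simp)
        exact lt_asymm e1 e2
      apply exists_step (f := fun y => P.run (ins p.rev y (fun i => w i.rev))) (h1 z hzT).le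
      have h5 := h4 z hzT
      unfold SF at h5
      rw [if_neg n1, if_neg n2, if_pos hd, if_pos hd', hrev, hrev] at h5
      exact h5
    choose! g hg using hch
    have hinj : Set.InjOn g Td := by
      intro z hz z' hz' heq
      by_contra hne
      have a1 := hg z hz
      have a2 := hg z' hz'
      rcases h3 z (mem_filter.1 hz).1 z' (mem_filter.1 hz').1 hne with h | h <;> omega
    refine le_trans ?_ (hB p.rev (fun i => w i.rev) (fun i => hw _))
    apply card_le_card_of_injOn g _ hinj
    intro z hz
    obtain ⟨hzT, hno, hd⟩ := mem_filter.1 hz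
    obtain ⟨b1, b2, b3⟩ := hg z hz
    have h6 := h2 z hzT
    rw [mem_coe, mem_tcs]
    refine ⟨by omega, ?_, ?_, b3⟩
    · rw [← hrev]
      intro a b hab
      exact (htype z hzT hno (lo z) (g z) le_rfl (h1 z hzT).le b1 b2.le _ _).1
        (hd (Fin.rev_lt_rev.2 hab))
    · rw [← hrev]
      intro a b hab
      exact (htype z hzT hno (lo z) (g z + 1) le_rfl (h1 z hzT).le (by omega) (by omega) _ _).1
        (hd (Fin.rev_lt_rev.2 hab))
  have e1 := card_le_card hcov
  have e2 := card_union_le Ta (Tm ∪ Td)
  have e3 := card_union_le Tm Td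
  omega

end Pool.Agent.W2helper90.OA
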