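import Pool.Agent.W2helper90.OA.Sharp

/-!
# Stepping up with few changes: the bound
-/

set_option autoImplicit false

namespace Pool.Agent.W2helper90.OA

open Finset Pool.Agent.TH138.NF Pool.Agent.W2helper90.FC

theorem D_rem1 {t : ℕ} (x : Fin (t + 2) → ℕ) (hx : StrictMono x) (j : Fin (t + 1))
    (hloc : ∀ i : Fin t, i.castSucc = j → D x i.castSucc < D x i.succ) :
    D (j.succ.removeNth x) = j.removeNth (D x) := by
  funext i
  rw [Fin.removeNth_apply]
  simp only [D, Fin.removeNth_apply]
  rw [Fin.succ_succAbove_succ]
  rcases lt_trichotomy i.castSucc j with h | h | h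
  · rw [Fin.succAbove_of_castSucc_lt _ _ h]
    rw [Fin.succAbove_of_castSucc_lt]
    rw [Fin.lt_def] at h ⊢
    simp only [Fin.val_castSucc, Fin.val_succ] at h ⊢
    omega
  · have h1 : j.succAbove i = i.succ := Fin.succAbove_of_le_castSucc _ _ h.ge
    have h2 : j.succ.succAbove i.castSucc = i.castSucc.castSucc := by
      apply Fin.succAbove_of_castSucc_lt
      rw [Fin.lt_def]
      rw [← h]
      simp
    rw [h1, h2]
    have h3 : D x i.castSucc < D x i.succ := hloc i h
    have h4 := hd_max (hx (Fin.castSucc_lt_succ (i := i.castSucc)))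
      (hx (Fin.castSucc_lt_succ (i := i.succ)))
    simp only [D] at h3
    rw [Fin.succ_castSucc] at h3 h4
    rw [h4]
    exact max_eq_right h3.le
  · have h1 : j.succAbove i = i.succ := Fin.succAbove_of_le_castSucc _ _ h.le
    have h2 : j.succ.succAbove i.castSucc = i.castSucc.succ := by
      apply Fin.succAbove_of_le_castSucc
      rw [Fin.lt_def] at h
      rw [Fin.le_def]
      simp only [Fin.val_castSucc, Fin.val_succ] at h ⊢
      omega
    rw [h1, h2, Fin.succ_castSucc]

theorem D_rem2 {t : ℕ} (x : Fin (t + 2) → ℕ) (hx : StrictMono x) (l : Fin (t + 1))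
    (hloc : ∀ i : Fin t, i.succ = l → D x i.succ < D x i.castSucc) :
    D (l.castSucc.removeNth x) = l.removeNth (D x) := by
  funext i
  rw [Fin.removeNth_apply]
  simp only [D, Fin.removeNth_apply]
  rw [Fin.castSucc_succAbove_castSucc]
  rcases lt_trichotomy i.succ l with h | h | h
  · have h1 : l.succAbove i = i.castSucc := by
      apply Fin.succAbove_of_castSucc_lt
      exact lt_trans Fin.castSucc_lt_succ h
    have h2 : l.castSucc.succAbove i.succ = i.succ.castSucc := by
      apply Fin.succAbove_of_castSucc_lt
      rwa [Fin.castSucc_lt_castSucc_iff]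
    rw [h1, h2, Fin.succ_castSucc]
  · have h1 : l.succAbove i = i.castSucc := by
      apply Fin.succAbove_of_castSucc_lt
      rw [← h]
      exact Fin.castSucc_lt_succ
    have h2 : l.castSucc.succAbove i.succ = i.succ.succ := by
      apply Fin.succAbove_of_le_castSucc
      rw [← h]
    rw [h1, h2]
    have h3 : D x i.succ < D x i.castSucc := hloc i h
    have h4 := hd_max (hx (Fin.castSucc_lt_succ (i := i.castSucc)))
      (hx (Fin.castSucc_lt_succ (i := i.succ)))
    simp only [D] at h3
    rw [Fin.succ_castSucc] at h3 h4
    rw [h4, Fin.succ_castSucc]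
    exact max_eq_left h3.le
  · have h1 : l.succAbove i = i.succ := by
      apply Fin.succAbove_of_le_castSucc
      rw [Fin.lt_def] at h
      rw [Fin.le_def]
      simp only [Fin.val_castSucc, Fin.val_succ] at h ⊢
      omega
    have h2 : l.castSucc.succAbove i.succ = i.succ.succ := by
      apply Fin.succAbove_of_le_castSucc
      rw [Fin.castSucc_le_castSucc_iff]
      exact h.le
    rw [h1, h2]

theorem ins_castSucc {m : ℕ} (j : Fin (m + 1)) (z : ℕ) (y : Fin (m + 1) → ℕ) :
    ins j.succ z y j.castSucc = y j := by
  have : j.succ.succAbove j = j.castSucc := by simp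
  conv_lhs => rw [← this]
  exact Fin.insertNth_apply_succAbove _ _ _ _

theorem ins_succ {m : ℕ} (l : Fin (m + 1)) (z : ℕ) (y : Fin (m + 1) → ℕ) :
    ins l.castSucc z y l.succ = y l := by
  have : l.castSucc.succAbove l = l.succ := by simp
  conv_lhs => rw [← this]
  exact Fin.insertNth_apply_succAbove _ _ _ _

theorem D_ins1 {m : ℕ} (j : Fin (m + 1)) (z : ℕ) (y : Fin (m + 1) → ℕ)
    (hx : StrictMono (ins j.succ z y))
    (hloc : ∀ i : Fin m, i.castSucc = j → hd (y i.castSucc) z < hd z (y i.succ)) :
    D (ins j.succ z y) = ins j (hd (y j) z) (D y) := by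
  refine Fin.eq_insertNth_iff.2 ⟨?_, ?_⟩
  · simp only [D]
    rw [ins_castSucc]
    simp [ins]
  · rw [← D_rem1 _ hx j, Fin.removeNth_insertNth]
    intro i hi
    subst hi
    simp only [D]
    rw [ins_castSucc]
    have e1 : ins i.castSucc.succ z y i.castSucc.succ = z := by simp [ins]
    have e2 : ins i.castSucc.succ z y i.succ.castSucc = z := by
      rw [← Fin.succ_castSucc]
      exact e1
    have e3 : ins i.castSucc.succ z y i.succ.succ = y i.succ := by
      rw [Fin.succ_castSucc]
      exact ins_succ _ _ _
    rw [e1, e2, e3]
    exact hloc i rfl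

theorem D_ins2 {m : ℕ} (l : Fin (m + 1)) (z : ℕ) (y : Fin (m + 1) → ℕ)
    (hx : StrictMono (ins l.castSucc z y))
    (hloc : ∀ i : Fin m, i.succ = l → hd z (y i.succ) < hd (y i.castSucc) z) :
    D (ins l.castSucc z y) = ins l (hd z (y l)) (D y) := by
  refine Fin.eq_insertNth_iff.2 ⟨?_, ?_⟩
  · simp only [D]
    rw [ins_succ]
    simp [ins]
  · rw [← D_rem2 _ hx l, Fin.removeNth_insertNth]
    intro i hi
    subst hi
    simp only [D]
    rw [ins_succ]
    have e1 : ins i.succ.castSucc z y i.succ.castSucc = z := by simp [ins]
    have e2 : ins i.succ.castSucc z y i.castSucc.succ = z := by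
      rw [Fin.succ_castSucc]
      exact e1
    have e3 : ins i.succ.castSucc z y i.castSucc.castSucc = y i.castSucc := by
      rw [← Fin.succ_castSucc]
      exact ins_castSucc _ _ _
    rw [e1, e2, e3]
    exact hloc i rfl

/-- **Stepping up preserves the number of changes up to a constant factor.** -/
theorem step_changes {t : ℕ} (P : Protocol (Bool × Bool) (t + 2)) (M B : ℕ)
    (hB : ∀ p (w : Fin (t + 2) → ℕ), (∀ i, w i < M) → (tcs P M p w).card ≤ B)
    (p : Fin (t + 4)) (y : Fin (t + 3) → ℕ) (hy : ∀ i, y i < 2 ^ M) :
    (tcs P.step (2 ^ M) p y).card ≤ 4 * B + 4 * (t + 2) + 1 := by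
  classical
  by_cases hmono : StrictMono y
  swap
  · have : tcs P.step (2 ^ M) p y = ∅ := by
      rw [eq_empty_iff_forall_notMem]
      intro z hz
      rw [mem_tcs] at hz
      exact hmono ((Fin.strictMono_insertNth_iff _ _ _).1 hz.2.1).1
    rw [this]
    simp
  have hDlt : ∀ i, D y i < M := fun i => hd_lt (hmono Fin.castSucc_lt_succ) (hy _)
  set T := tcs P.step (2 ^ M) p y with hT
  have hTm : ∀ z ∈ T, z + 1 < 2 ^ M ∧ StrictMono (ins p z y) ∧ StrictMono (ins p (z + 1) y) ∧
      SF P (D (ins p z y)) ≠ SF P (D (ins p (z + 1) y)) := by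
    intro z hz
    obtain ⟨h1, h2, h3, h4⟩ := mem_tcs.1 hz
    rw [run_step P _ h2, run_step P _ h3] at h4
    exact ⟨h1, h2, h3, h4⟩
  -- vertices below and above
  have hbelow : ∀ z ∈ T, ∀ i : Fin (t + 3), i.castSucc < p → y i < z := fun z hz i hi =>
    ((Fin.strictMono_insertNth_iff _ _ _).1 (hTm z hz).2.1).2.1 i hi
  have habove : ∀ z ∈ T, ∀ i : Fin (t + 3), p ≤ i.castSucc → z + 1 < y i := fun z hz i hi =>
    ((Fin.strictMono_insertNth_iff _ _ _).1 (hTm z hz).2.2.1).2.2 i hi
  revert T
  refine Fin.cases ?_ (fun j => ?_) p
  · -- the first gap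
    intro T hT hTm hbelow habove
    have hD : ∀ z, StrictMono (ins 0 z y) →
        D (ins 0 z y) = ins 0 (hd z (y 0)) (D y) := by
      intro z hz
      have := D_ins2 (0 : Fin (t + 3)) z y (by simpa using hz) (by
        intro i hi
        exact absurd hi (Fin.succ_ne_zero i))
      simpa using this
    have hab : ∀ z ∈ T, z + 1 < y 0 := fun z hz => habove z hz 0 (by simp)
    have := count P M B hB 0 (D y) hDlt T (fun z => hd (z + 1) (y 0)) (fun z => hd z (y 0))
      (by
        intro z hz
        refine lt_of_le_of_ne (hd_down (hab z hz)) (fun h => ?_)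
        obtain ⟨-, h2, h3, h4⟩ := hTm z hz
        apply h4
        rw [hD z h2, hD (z + 1) h3, h])
      (by
        intro z hz
        exact hd_lt (by have := hab z hz; omega) (hy 0))
      (by
        intro z hz z' hz' hne
        rcases lt_or_gt_of_ne hne with h | h
        · right
          exact hd_down' (z := z + 1) (z' := z') h (by have := hab z' hz'; omega)
        · left
          exact hd_down' (z := z' + 1) (z' := z) h (by have := hab z hz; omega))
      (by
        intro z hz
        obtain ⟨-, h2, h3, h4⟩ := hTm z hz
        rw [hD z h2, hD (z + 1) h3] at h4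
        exact h4.symm)
    omega
  · refine Fin.lastCases ?_ (fun i => ?_) j
    · -- the last gap
      intro T hT hTm hbelow habove
      have hD : ∀ z, StrictMono (ins (Fin.last (t + 2)).succ z y) →
          D (ins (Fin.last (t + 2)).succ z y) = ins (Fin.last (t + 2)) (hd (y (Fin.last _)) z)
            (D y) := by
        intro z hz
        exact D_ins1 (Fin.last (t + 2)) z y hz (by
          intro i hi
          exact absurd hi (Fin.castSucc_lt_last i).ne)
      have hab : ∀ z ∈ T, y (Fin.last (t + 2)) < z := fun z hz => hbelow z hz _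
        Fin.castSucc_lt_succ
      have := count P M B hB (Fin.last _) (D y) hDlt T (fun z => hd (y (Fin.last _)) z)
        (fun z => hd (y (Fin.last _)) (z + 1))
        (by
          intro z hz
          refine lt_of_le_of_ne (hd_up (hab z hz)) (fun h => ?_)
          obtain ⟨-, h2, h3, h4⟩ := hTm z hz
          apply h4
          rw [hD z h2, hD (z + 1) h3, h])
        (by
          intro z hz
          exact hd_lt (by have := hab z hz; omega) (hTm z hz).1)
        (by
          intro z hz z' hz' hne
          rcases lt_or_gt_of_ne hne with h | h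
          · left
            exact hd_up' (by have := hab z hz; omega) h
          · right
            exact hd_up' (by have := hab z' hz'; omega) h)
        (by
          intro z hz
          obtain ⟨-, h2, h3, h4⟩ := hTm z hz
          rw [hD z h2, hD (z + 1) h3] at h4
          exact h4)
      omega
    · -- a middle gap
      intro T hT hTm hbelow habove
      set a := y i.castSucc with ha
      set b := y i.succ with hb
      have hlo : ∀ z ∈ T, a < z := fun z hz => hbelow z hz _ Fin.castSucc_lt_succ
      have hhi : ∀ z ∈ T, z + 1 < b := fun z hz => habove z hz _ (by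
        rw [Fin.succ_castSucc])
      have hD1 : ∀ z, StrictMono (ins i.castSucc.succ z y) → hd a z < hd z b →
          D (ins i.castSucc.succ z y) = ins i.castSucc (hd a z) (D y) := by
        intro z hz hlt
        exact D_ins1 i.castSucc z y hz (by
          intro i' hi'
          rw [Fin.castSucc_inj] at hi'
          subst hi'
          exact hlt)
      have hD2 : ∀ z, StrictMono (ins i.castSucc.succ z y) → hd z b < hd a z →
          D (ins i.castSucc.succ z y) = ins i.succ (hd z b) (D y) := by
        intro z hz hlt
        have := D_ins2 i.succ z y (by rw [← Fin.succ_castSucc]; exact hz) (by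
          intro i' hi'
          rw [Fin.succ_inj] at hi'
          subst hi'
          exact hlt)
        rw [← Fin.succ_castSucc] at this
        exact this
      have hup : ∀ z ∈ T, hd a z ≤ hd a (z + 1) := fun z hz => hd_up (hlo z hz)
      have hdn : ∀ z ∈ T, hd (z + 1) b ≤ hd z b := fun z hz => hd_down (hhi z hz)
      let T1 := T.filter fun z => hd a (z + 1) < hd (z + 1) b
      let T2 := T.filter fun z => hd z b < hd a z
      let T3 := T.filter fun z => hd a z < hd z b ∧ hd (z + 1) b < hd a (z + 1)
      have hcov : T ⊆ T1 ∪ (T2 ∪ T3) := by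
        intro z hz
        have n1 := hd_ne (hlo z hz) (show z < b by have := hhi z hz; omega)
        have n2 := hd_ne (show a < z + 1 by have := hlo z hz; omega) (hhi z hz)
        rw [mem_union, mem_union]
        by_cases g1 : hd a (z + 1) < hd (z + 1) b
        · exact Or.inl (mem_filter.2 ⟨hz, g1⟩)
        · by_cases g2 : hd z b < hd a z
          · exact Or.inr (Or.inl (mem_filter.2 ⟨hz, g2⟩))
          · exact Or.inr (Or.inr (mem_filter.2 ⟨hz, by omega, by omega⟩))
      have c1 : T1.card ≤ 2 * B + 2 * (t + 2) := by
        refine count P M B hB i.castSucc (D y) hDlt T1 (fun z => hd a z) (fun z => hd a (z + 1))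
          ?_ ?_ ?_ ?_
        · intro z hz
          obtain ⟨hzT, h1⟩ := mem_filter.1 hz
          refine lt_of_le_of_ne (hup z hzT) (fun h => ?_)
          obtain ⟨-, h2, h3, h4⟩ := hTm z hzT
          apply h4
          have := hup z hzT
          have := hdn z hzT
          rw [hD1 z h2 (by omega), hD1 (z + 1) h3 h1, h]
        · intro z hz
          obtain ⟨hzT, h1⟩ := mem_filter.1 hz
          exact hd_lt (by have := hlo z hzT; omega) (hTm z hzT).1
        · intro z hz z' hz' hne
          have e1 := hlo z (mem_filter.1 hz).1
          have e2 := hlo z' (mem_filter.1 hz').1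
          rcases lt_or_gt_of_ne hne with h | h
          · left
            exact hd_up' (by omega) h
          · right
            exact hd_up' (by omega) h
        · intro z hz
          obtain ⟨hzT, h1⟩ := mem_filter.1 hz
          obtain ⟨-, h2, h3, h4⟩ := hTm z hzT
          have := hup z hzT
          have := hdn z hzT
          rw [hD1 z h2 (by omega), hD1 (z + 1) h3 h1] at h4
          exact h4
      have c2 : T2.card ≤ 2 * B + 2 * (t + 2) := by
        refine count P M B hB i.succ (D y) hDlt T2 (fun z => hd (z + 1) b) (fun z => hd z b)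
          ?_ ?_ ?_ ?_
        · intro z hz
          obtain ⟨hzT, h1⟩ := mem_filter.1 hz
          refine lt_of_le_of_ne (hdn z hzT) (fun h => ?_)
          obtain ⟨-, h2, h3, h4⟩ := hTm z hzT
          apply h4
          have := hup z hzT
          rw [hD2 z h2 h1, hD2 (z + 1) h3 (by omega), h]
        · intro z hz
          obtain ⟨hzT, h1⟩ := mem_filter.1 hz
          exact hd_lt (by have := hhi z hzT; omega) (hy _)
        · intro z hz z' hz' hne
          have e1 := hhi z (mem_filter.1 hz).1
          have e2 := hhi z' (mem_filter.1 hz').1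
          rcases lt_or_gt_of_ne hne with h | h
          · right
            exact hd_down' (z := z + 1) (z' := z') h (by omega)
          · left
            exact hd_down' (z := z' + 1) (z' := z) h (by omega)
        · intro z hz
          obtain ⟨hzT, h1⟩ := mem_filter.1 hz
          obtain ⟨-, h2, h3, h4⟩ := hTm z hzT
          have := hup z hzT
          have := hdn z hzT
          rw [hD2 z h2 h1, hD2 (z + 1) h3 (by omega)] at h4
          exact h4.symm
      have c3 : T3.card ≤ 1 := by
        rw [card_le_one]
        intro z hz z' hz'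
        obtain ⟨hzT, h1, h2⟩ := mem_filter.1 hz
        obtain ⟨hzT', h1', h2'⟩ := mem_filter.1 hz'
        have e1 := hhi z hzT
        have e2 := hhi z' hzT'
        have f1 := hlo z hzT
        have f2 := hlo z' hzT'
        rcases lt_trichotomy z z' with h | h | h
        · exfalso
          have g1 : hd a (z + 1) ≤ hd a z' := hd_up' (by omega) h
          have g2 : hd z' b ≤ hd (z + 1) b := hd_down' (z := z + 1) (z' := z') h (by omega)
          omega
        · exact h
        · exfalso
          have g1 : hd a (z' + 1) ≤ hd a z := hd_up' (by omega) h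
          have g2 : hd z b ≤ hd (z' + 1) b := hd_down' (z := z' + 1) (z' := z) h (by omega)
          omega
      have d1 := card_le_card hcov
      have d2 := card_union_le T1 (T2 ∪ T3)
      have d3 := card_union_le T2 T3
      omega

end Pool.Agent.W2helper90.OA
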